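import Mathlib
import Pool.Agent.Lib.MP_0f3a7d_alT.Defs

/-!
# MP_0f3a7d_al: alternating machines
-/

set_option autoImplicit false

namespace Pool.Agent.Lib.MP_0f3a7d_alT

/-- The program `p` can lead from the store `s` to the store `s'` with `t` actions. -/
def Leads {k : ℕ} {Γ : Type} (p : Prog k Γ) (t : ℕ) (s s' : Store k Γ) : Prop := ∃ b, Run b p t s s'

/-- An alternating machine with the input alphabet `σ`. It starts with the program `start` and makes rounds; a round is a run of
the program `ex`, a universal choice of a number `j < n`, and a run of the program `br j` (all other choices are existential). It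
ends with a run of the program `stop`. -/
structure AMachine (σ : Type) : Type 1 where
  k : ℕ
  Γ : Type
  fin : Finite Γ
  inp : σ → Γ
  n : ℕ
  start : Prog (k + 1) Γ
  ex : Prog (k + 1) Γ
  br : Fin n → Prog (k + 1) Γ
  stop : Prog (k + 1) Γ

/-- The initial store: the input on stack `0`. -/
def AMachine.init {σ : Type} (M : AMachine σ) (x : List σ) : Store (M.k + 1) M.Γ :=
  fun i => if i = 0 then x.map M.inp else []

/-- `M.Win T d s`: there is an accepting tree from the store `s`; on all its branches the time is at most `T` and the number of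
rounds is at most `d`. -/
inductive AMachine.Win {σ : Type} (M : AMachine σ) : ℕ → ℕ → Store (M.k + 1) M.Γ → Prop where
  | stop (T d t : ℕ) (s s' : Store (M.k + 1) M.Γ) (h : Leads M.stop t s s') (ht : t ≤ T) : M.Win T d s
  | round (T d t : ℕ) (s s' : Store (M.k + 1) M.Γ) (h : Leads M.ex t s s') (ht : t ≤ T)
      (u T' : Fin M.n → ℕ) (f : Fin M.n → Store (M.k + 1) M.Γ) (h1 : ∀ j, Leads (M.br j) (u j) s' (f j))
      (h2 : ∀ j, t + u j + T' j ≤ T) (h3 : ∀ j, M.Win (T' j) d (f j)) : M.Win T (d + 1) s

/-- The machine accepts `x` in time `T` with `d` rounds. -/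
def AMachine.Acc {σ : Type} (M : AMachine σ) (x : List σ) (T d : ℕ) : Prop :=
  ∃ (t T' : ℕ) (s : Store (M.k + 1) M.Γ), Leads M.start t (M.init x) s ∧ t + T' ≤ T ∧ M.Win T' d s

/-- Some alternating machine accepts exactly the words of `L`, in time at most `c (|x| + 1)` with at most
`c (log₂ (|x| + 1) + 1)` rounds. -/
def InAltLin {σ : Type} (L : Set (List σ)) : Prop :=
  ∃ (M : AMachine σ) (c : ℕ),
    (∀ x ∈ L, M.Acc x (c * (x.length + 1)) (c * (Nat.log 2 (x.length + 1) + 1))) ∧
    ∀ x T d, M.Acc x T d → x ∈ L

end Pool.Agent.Lib.MP_0f3a7d_alT
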