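import Mathlib
import Pool.Agent.Lib.MP_0f3a7d_alT.Defs4
import Pool.Agent.Lib.MP_0f3a7d_alU.Alt

/-!
# MP_0f3a7d_al: the alternating machine for the division of loops

Stacks (numbers in `Fin (m + 5)`): `0` the input, `1` a copy, `sV = 2` the verification stack, `sW = 3` the current word,
`sP = 4` the conjugating word, `sU j = j + 5` (`j < m`) the words of half the length. Letters: `Sum.inl a` for `a ∈ σ`,
`Sum.inr y` for the letters of words over the generators. The head of a stack is the first letter of the word on it.
-/

set_option autoImplicit false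

namespace Pool.Agent.Lib.MP_0f3a7d_alT

/-- Some run with time at most `T`. -/
def Lead {k : ℕ} {Γ : Type} (T : ℕ) (p : Prog k Γ) (s s' : Store k Γ) : Prop := ∃ t ≤ T, Leads p t s s'

/-- The inverse letter. -/
def fl {ι : Type} (y : ι × Bool) : ι × Bool := (y.1, !y.2)

/-- The reduced word. -/
noncomputable def red {ι : Type} (z : Wd ι) : Wd ι := @FreeGroup.reduce ι (Classical.decEq ι) z

section Programs

variable {σ ι : Type} {k : ℕ}

/-- Multiply the word on stack `v` by the letter `y` from the left (cancel the first letter or push). -/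
def mulV (v : Fin k) (y : ι × Bool) : Prog k (σ ⊕ ι × Bool) :=
  .alt (.pop v (Sum.inr (fl y))) (.push v (Sum.inr y))

/-- Guess a word on stack `i` and multiply stack `v` by it. -/
noncomputable def gl [Finite ι] (v i : Fin k) : Prog k (σ ⊕ ι × Bool) :=
  .star (alts ((allL (ι × Bool)).map fun y => .seq (.push i (Sum.inr y)) (mulV v y)))

/-- Empty stack `i` and multiply stack `v` by the inverse of the word on it. -/
noncomputable def un [Finite ι] (v i : Fin k) : Prog k (σ ⊕ ι × Bool) :=
  .seq (.star (alts ((allL (ι × Bool)).map fun y => .seq (.pop i (Sum.inr y)) (mulV v (fl y))))) (.empty i)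

/-- Empty stack `i` and put the inverse word on stack `w`. -/
noncomputable def tr [Finite ι] (i w : Fin k) : Prog k (σ ⊕ ι × Bool) :=
  .seq (.star (alts ((allL (ι × Bool)).map fun y =>
    .seq (.pop i (Sum.inr y)) (.push w (Sum.inr (fl y)))))) (.empty i)

end Programs

section Stacks

/-- The verification stack. -/
def sV (m : ℕ) : Fin (m + 5) := ⟨2, by omega⟩

/-- The stack of the current word. -/
def sW (m : ℕ) : Fin (m + 5) := ⟨3, by omega⟩

/-- The stack of the conjugating word. -/
def sP (m : ℕ) : Fin (m + 5) := ⟨4, by omega⟩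

/-- The stack of the `j`-th word. -/
def sU {m : ℕ} (j : Fin m) : Fin (m + 5) := ⟨j.val + 5, by omega⟩

variable {σ ι : Type}

/-- The store with the input `x`, the current word `w`, the verification word `z`, the conjugating word `q` and the words
`u j`. -/
def stA (m : ℕ) (x : List σ) (w z q : Wd ι) (u : Fin m → Wd ι) : Store (m + 5) (σ ⊕ ι × Bool) := fun i =>
  if h : i.val < 5 then
    (if i.val = 0 then x.map Sum.inl else if i.val = 2 then wr z else if i.val = 3 then wr w
      else if i.val = 4 then wr q else [])
  else wr (u ⟨i.val - 5, by omega⟩)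

/-- One conjugate: guess `q`, guess `a` on stack `sU j`, multiply the verification word by `q⁻¹ a q`. -/
noncomputable def rd [Finite ι] {m : ℕ} (j : Fin m) : Prog (m + 5) (σ ⊕ ι × Bool) :=
  .seq (gl (sV m) (sP m)) (.seq (gl (sV m) (sU j)) (un (sV m) (sP m)))

/-- The conjugates for the numbers in a list, the last one first. -/
noncomputable def rds [Finite ι] {m : ℕ} : List (Fin m) → Prog (m + 5) (σ ⊕ ι × Bool)
  | [] => .one
  | j :: l => .seq (rds l) (rd j)

/-- The existential part: guess the division and check it. -/
noncomputable def exP [Finite ι] (m : ℕ) : Prog (m + 5) (σ ⊕ ι × Bool) :=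
  .seq (rds (List.finRange m)) (.seq (un (sV m) (sW m)) (.empty (sV m)))

/-- The branch `j`: the inverse of the `j`-th word is the new word. -/
noncomputable def brP [Finite ι] {m : ℕ} (j : Fin m) : Prog (m + 5) (σ ⊕ ι × Bool) :=
  .seq (tr (sU j) (sW m)) (seqs ((List.finRange m).map fun i => clear ((allL (ι × Bool)).map Sum.inr) (sU i)))

/-- The end: the current word is in the list `R`. -/
def stP (m : ℕ) (R : List (Wd ι)) : Prog (m + 5) (σ ⊕ ι × Bool) :=
  alts (R.map fun r => .seq (popW (sW m) (wr r)) (.empty (sW m)))

/-- The beginning: build the word `comm A U T x` on stack `3`. -/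
noncomputable def startP [Finite σ] (m : ℕ) (A : σ → Wd ι) (U T : Wd ι) : Prog (m + 5) (σ ⊕ ι × Bool) :=
  embP (Fin.castLE (by omega)) id (bld A U T)

/-- The machine. -/
noncomputable def AltM [Finite σ] [Finite ι] (m : ℕ) (R : List (Wd ι)) (A : σ → Wd ι) (U T : Wd ι) : AMachine σ where
  k := m + 4
  Γ := σ ⊕ ι × Bool
  fin := inferInstance
  inp := Sum.inl
  n := m
  start := startP m A U T
  ex := exP m
  br := brP
  stop := stP m R

end Stacks

end Pool.Agent.Lib.MP_0f3a7d_alT
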