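import Mathlib
import Pool.Agent.Lib.MP_0f3a7d_alT.C2
import Pool.Agent.Lib.MP_0f3a7d_alU.Defs

/-!
# MP_0f3a7d_al, leaf U1: runs with a time bound only

`Lead T p s s'` is `∃ t ≤ T, ∃ b, Run b p t s s'`, i.e. `∃ b, RunLe b T p s s'`. All rules from the rules for `RunLe` (C1, C2) with
`b` large; in `seq`, `starCons` take the maximum of the two space bounds (`RunLe.mono`).
-/

set_option autoImplicit false

namespace Pool.Agent.Lib.MP_0f3a7d_alT

variable {k : ℕ} {Γ : Type} {p q : Prog k Γ} {s s' s'' : Store k Γ} {T T' t b : ℕ} {i : Fin k}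

theorem lead_iff : Lead T p s s' ↔ ∃ b, RunLe b T p s s' := by
  constructor
  · rintro ⟨t, ht, b, h⟩
    exact ⟨b, t, ht, h⟩
  · rintro ⟨b, t, ht, h⟩
    exact ⟨t, ht, b, h⟩

theorem RunLe.lead (h : RunLe b T p s s') : Lead T p s s' := by
  exact lead_iff.2 ⟨b, h⟩

theorem Leads.sem (h : Leads p t s s') : Sem p s s' := by
  obtain ⟨b, h1⟩ := h
  exact ⟨b, t, h1⟩

theorem Lead.sem (h : Lead T p s s') : Sem p s s' := by
  obtain ⟨t, _, h1⟩ := h
  exact h1.sem

theorem Lead.mono (hT : T ≤ T') (h : Lead T p s s') : Lead T' p s s' := by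
  obtain ⟨t, ht, h1⟩ := h
  exact ⟨t, ht.trans hT, h1⟩

theorem Lead.one : Lead 0 (.one : Prog k Γ) s s := by
  exact (RunLe.one (le_refl (space s))).lead

theorem Lead.push {a : Γ} : Lead 1 (.push i a) s (Function.update s i (a :: s i)) := by
  exact (RunLe.push (le_refl (space s + 1))).lead

theorem Lead.pop {a : Γ} {l : List Γ} (hs : s i = a :: l) : Lead 1 (.pop i a) s (Function.update s i l) := by
  exact (RunLe.pop hs (le_refl (space s))).lead

theorem Lead.empty (hs : s i = []) : Lead 1 (.empty i) s s := by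
  exact (RunLe.empty hs (le_refl (space s))).lead

theorem Lead.seq (h : Lead T p s s') (h' : Lead T' q s' s'') : Lead (T + T') (.seq p q) s s'' := by
  obtain ⟨b, h1⟩ := lead_iff.1 h
  obtain ⟨b', h2⟩ := lead_iff.1 h'
  exact (RunLe.seq (h1.mono (le_max_left b b') le_rfl) (h2.mono (le_max_right b b') le_rfl)).lead

theorem Lead.altl (h : Lead T p s s') : Lead T (.alt p q) s s' := by
  obtain ⟨b, h1⟩ := lead_iff.1 h
  exact (RunLe.altl h1).lead

theorem Lead.altr (h : Lead T q s s') : Lead T (.alt p q) s s' := by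
  obtain ⟨b, h1⟩ := lead_iff.1 h
  exact (RunLe.altr h1).lead

theorem Lead.starNil : Lead 0 (.star p) s s := by
  exact (RunLe.starNil (le_refl (space s))).lead

theorem Lead.starCons (h : Lead T p s s') (h' : Lead T' (.star p) s' s'') : Lead (T + T') (.star p) s s'' := by
  obtain ⟨b, h1⟩ := lead_iff.1 h
  obtain ⟨b', h2⟩ := lead_iff.1 h'
  exact (RunLe.starCons (h1.mono (le_max_left b b') le_rfl) (h2.mono (le_max_right b b') le_rfl)).lead

theorem Lead.alts {l : List (Prog k Γ)} {p : Prog k Γ} (hp : p ∈ l) (h : Lead T p s s') :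
    Lead T (alts l) s s' := by
  obtain ⟨b, h1⟩ := lead_iff.1 h
  exact (RunLe.alts hp h1).lead

theorem Lead.popW {w l : List Γ} (hs : s i = w ++ l) : Lead w.length (popW i w) s (Function.update s i l) := by
  exact (RunLe.popW hs (le_refl (space s))).lead

theorem Lead.clear {A : List Γ} (hA : ∀ a ∈ s i, a ∈ A) :
    Lead ((s i).length + 1) (clear A i) s (Function.update s i []) := by
  exact (RunLe.clear hA (le_refl (space s))).lead

end Pool.Agent.Lib.MP_0f3a7d_alT
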