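import Mathlib
import Pool.Agent.Lib.MP_0f3a7d_alT.C5
import Pool.Agent.Lib.MP_0f3a7d_alT.D1
import Pool.Agent.Lib.MP_0f3a7d_alU.U1

/-!
# MP_0f3a7d_al, leaf U12: the beginning, the length of `comm`

The stacks `0, 1, 2, 3` of `bld A U T` are embedded by `Fin.castLE`; `run_emb`, `sem_emb` (C5) with `φ = id`
(`List.map_id`), `sem_bld`, `run_bld` (D1): `stA m x (comm A U T x) [] [] fun _ => []` has `x.map Sum.inl` on stack `0`, `[]` on `1`
and `2`, `wr (comm A U T x)` on `3` and `[]` on all others, as `fini` and the initial store. `length_comm`: the length of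
`x.flatMap A` is at most `C |x|` where `C` is the maximum of the `|A a|`.
-/

set_option autoImplicit false

namespace Pool.Agent.Lib.MP_0f3a7d_alT

variable {σ ι : Type} [Finite σ]

omit [Finite σ] in
private theorem U12_ini {m : ℕ} (x : List σ) (hm : 4 ≤ m + 5) (i : Fin 4) :
    ((fun i : Fin (m + 5) => if i = 0 then x.map Sum.inl else []) : Store (m + 5) (σ ⊕ ι × Bool))
      (Fin.castLE hm i) = ((ini x : Store 4 (σ ⊕ ι × Bool)) i).map id := by
  rw [List.map_id]
  change (if Fin.castLE hm i = 0 then x.map Sum.inl else []) =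
    (if i = 0 then (x.map Sum.inl : List (σ ⊕ ι × Bool)) else [])
  have h : Fin.castLE hm i = 0 ↔ i = 0 := by
    rw [Fin.ext_iff, Fin.ext_iff]
    rfl
  simp only [h]

omit [Finite σ] in
private theorem U12_fin {m : ℕ} {A : σ → Wd ι} {U T : Wd ι} {x : List σ} (hm : 4 ≤ m + 5)
    {s' : Store (m + 5) (σ ⊕ ι × Bool)}
    (h2 : ∀ i, s' (Fin.castLE hm i) = ((fini A U T x : Store 4 (σ ⊕ ι × Bool)) i).map id)
    (h3 : ∀ j, (∀ i, Fin.castLE hm i ≠ j) → s' j = (if j = 0 then x.map Sum.inl else [])) :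
    s' = stA m x (comm A U T x) [] [] fun _ => [] := by
  funext j
  by_cases hj : j.val < 4
  · have h4 : j = Fin.castLE hm ⟨j.val, hj⟩ := rfl
    rw [h4, h2, List.map_id]
    have hcase : j.val = 0 ∨ j.val = 1 ∨ j.val = 2 ∨ j.val = 3 := by omega
    unfold fini stA
    rcases hcase with h | h | h | h <;> simp [h, wr, Fin.ext_iff]
  · rw [h3 j (fun i hi => hj (by rw [← hi]; exact i.2))]
    have h0 : j ≠ 0 := by
      intro h
      rw [h] at hj
      exact hj (by simp)
    rw [if_neg h0]
    unfold stA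
    split_ifs with h5 h6 h7 h8 h9
    · omega
    · rfl
    · omega
    · rfl
    · rfl
    · rfl

theorem sem_startP {m : ℕ} {A : σ → Wd ι} {U T : Wd ι} {x : List σ} {s' : Store (m + 5) (σ ⊕ ι × Bool)}
    (h : Sem (startP m A U T) (fun i => if i = 0 then x.map Sum.inl else []) s') :
    s' = stA m x (comm A U T x) [] [] fun _ => [] := by
  have hm : 4 ≤ m + 5 := by omega
  obtain ⟨s₀', h1, h2, h3⟩ := sem_emb (e := Fin.castLE hm) (φ := id) (Fin.castLE_injective hm)
    Function.injective_id h (ini x) (U12_ini x hm)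
  rw [sem_bld A U T h1] at h2
  exact U12_fin hm h2 h3

theorem lead_startP (m : ℕ) (A : σ → Wd ι) (U T : Wd ι) : ∃ c : ℕ, ∀ x : List σ,
    Lead (c * (x.length + 1)) (startP m A U T) (fun i => if i = 0 then x.map Sum.inl else [])
      (stA m x (comm A U T x) [] [] fun _ => []) := by
  have hm : 4 ≤ m + 5 := by omega
  obtain ⟨c, hc⟩ := run_bld A U T
  refine ⟨c, fun x => ?_⟩
  obtain ⟨t, ht, h⟩ := hc x
  obtain ⟨s', h1, h2, h3, -⟩ := run_emb (e := Fin.castLE hm) (φ := id) (Fin.castLE_injective hm) h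
    (fun i => if i = 0 then x.map Sum.inl else []) (U12_ini x hm)
    (space (fun i : Fin (m + 5) => if i = 0 then (x.map Sum.inl : List (σ ⊕ ι × Bool)) else []) +
      c * (x.length + 1)) (by omega)
  rw [U12_fin hm h2 h3] at h1
  exact ⟨t, ht, ⟨_, h1⟩⟩

omit [Finite σ] in
private theorem U12_len (A : σ → Wd ι) {c : ℕ} (hc : ∀ a, (A a).length ≤ c) (x : List σ) :
    (x.flatMap A).length ≤ c * x.length := by
  induction x with
  | nil => simp
  | cons a x ih =>
    rw [List.flatMap_cons, List.length_append, List.length_cons, Nat.mul_succ]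
    have := hc a
    omega

theorem length_comm (A : σ → Wd ι) (U T : Wd ι) :
    ∃ c : ℕ, ∀ x : List σ, (comm A U T x).length ≤ c * (x.length + 1) := by
  obtain ⟨c1, hc1⟩ : ∃ c1 : ℕ, ∀ a, (A a).length ≤ c1 := by
    obtain ⟨c1, hc1⟩ := (Set.finite_range fun a => (A a).length).bddAbove
    exact ⟨c1, fun a => hc1 ⟨a, rfl⟩⟩
  refine ⟨4 * c1 + 2 * U.length + 2 * T.length, fun x => ?_⟩
  have hX := U12_len A hc1 x
  have h1 : (comm A U T x).length = 2 * U.length + 2 * T.length + 4 * (x.flatMap A).length := by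
    unfold comm
    simp only [List.length_append, length_inv]
    ring
  rw [h1]
  nlinarith [hX, Nat.zero_le (U.length * x.length), Nat.zero_le (T.length * x.length)]

end Pool.Agent.Lib.MP_0f3a7d_alT
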