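import Mathlib
import Pool.Agent.Lib.MP_0f3a7d_alU.Defs

/-!
# MP_0f3a7d_al, leaf U3: the stores `stA`

Unfold `stA` and the stacks; the updates by `funext i` and cases on `i = sW m` etc. (`Fin.ext_iff`).
-/

set_option autoImplicit false

namespace Pool.Agent.Lib.MP_0f3a7d_alT

variable {σ ι : Type} {m : ℕ} {x : List σ} {w z q : Wd ι} {u : Fin m → Wd ι}

theorem sV_ne_sW : sV m ≠ sW m := by
  intro h
  have h1 := Fin.ext_iff.1 h
  simp [sV, sW] at h1

theorem sV_ne_sP : sV m ≠ sP m := by
  intro h
  have h1 := Fin.ext_iff.1 h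
  simp [sV, sP] at h1

theorem sW_ne_sP : sW m ≠ sP m := by
  intro h
  have h1 := Fin.ext_iff.1 h
  simp [sW, sP] at h1

theorem sU_ne_sV (j : Fin m) : sU j ≠ sV m := by
  intro h
  have h1 := Fin.ext_iff.1 h
  simp only [sU, sV] at h1
  omega

theorem sU_ne_sW (j : Fin m) : sU j ≠ sW m := by
  intro h
  have h1 := Fin.ext_iff.1 h
  simp only [sU, sW] at h1
  omega

theorem sU_ne_sP (j : Fin m) : sU j ≠ sP m := by
  intro h
  have h1 := Fin.ext_iff.1 h
  simp only [sU, sP] at h1
  omega

theorem sU_inj {i j : Fin m} (h : sU i = sU j) : i = j := by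
  have h1 := Fin.ext_iff.1 h
  simp only [sU] at h1
  exact Fin.ext (by omega)

theorem stA_sV : stA m x w z q u (sV m) = wr z := by
  simp [stA, sV]

theorem stA_sW : stA m x w z q u (sW m) = wr w := by
  simp [stA, sW]

theorem stA_sP : stA m x w z q u (sP m) = wr q := by
  simp [stA, sP]

theorem stA_sU (j : Fin m) : stA m x w z q u (sU j) = wr (u j) := by
  simp [stA, sU]

private theorem U3_val {i : Fin (m + 5)} {n : ℕ} (hn : n < m + 5) (h : i ≠ ⟨n, hn⟩) : i.val ≠ n :=
  fun h1 => h (Fin.ext h1)

theorem upd_sV (z' : Wd ι) : Function.update (stA m x w z q u) (sV m) (wr z') = stA m x w z' q u := by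
  funext i
  by_cases h : i = sV m
  · subst h
    rw [Function.update_self, stA_sV]
  · rw [Function.update_of_ne h]
    have h1 := U3_val _ h
    simp only [stA, if_neg h1]

theorem upd_sW (w' : Wd ι) : Function.update (stA m x w z q u) (sW m) (wr w') = stA m x w' z q u := by
  funext i
  by_cases h : i = sW m
  · subst h
    rw [Function.update_self, stA_sW]
  · rw [Function.update_of_ne h]
    have h1 := U3_val _ h
    simp only [stA, if_neg h1]

theorem upd_sP (q' : Wd ι) : Function.update (stA m x w z q u) (sP m) (wr q') = stA m x w z q' u := by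
  funext i
  by_cases h : i = sP m
  · subst h
    rw [Function.update_self, stA_sP]
  · rw [Function.update_of_ne h]
    have h1 := U3_val _ h
    simp only [stA, if_neg h1]

theorem upd_sU (j : Fin m) (a : Wd ι) : Function.update (stA m x w z q u) (sU j) (wr a) =
    stA m x w z q (Function.update u j a) := by
  funext i
  by_cases h : i = sU j
  · subst h
    rw [Function.update_self, stA_sU, Function.update_self]
  · rw [Function.update_of_ne h]
    by_cases h5 : i.val < 5
    · simp only [stA, dif_pos h5]
    · simp only [stA, dif_neg h5]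
      rw [Function.update_of_ne]
      intro h1
      refine h (Fin.ext ?_)
      have h2 := Fin.ext_iff.1 h1
      simp only [sU] at h2 ⊢
      omega

/-- The words on the stacks determine the store. -/
theorem stA_inj {w' z' q' : Wd ι} {u' : Fin m → Wd ι} (h : stA m x w z q u = stA m x w' z' q' u') :
    w = w' ∧ z = z' ∧ q = q' ∧ u = u' := by
  have hwr : Function.Injective (wr : Wd ι → List (σ ⊕ ι × Bool)) := by
    intro a b hab
    exact List.map_injective_iff.2 Sum.inr_injective hab
  refine ⟨hwr ?_, hwr ?_, hwr ?_, funext fun j => hwr ?_⟩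
  · have h1 := congrFun h (sW m)
    rwa [stA_sW, stA_sW] at h1
  · have h1 := congrFun h (sV m)
    rwa [stA_sV, stA_sV] at h1
  · have h1 := congrFun h (sP m)
    rwa [stA_sP, stA_sP] at h1
  · have h1 := congrFun h (sU j)
    rwa [stA_sU, stA_sU] at h1

end Pool.Agent.Lib.MP_0f3a7d_alT
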