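import Mathlib
import Pool.Agent.Lib.MP_0f3a7d_alU.Defs

/-!
# MP_0f3a7d_al, leaf U2: reduced words

`red = FreeGroup.reduce` (with classical decidable equality). `mk_red`: `FreeGroup.reduce.self`; `red_eq`: `FreeGroup.reduce.exact`
or `FreeGroup.reduce.sound` (`FreeGroup.toWord_mk`); `red_cons`: `FreeGroup.reduce.cons` (by cases on `red z`); `length_red`:
`FreeGroup.Red.length_le` for `FreeGroup.reduce.red`.
-/

set_option autoImplicit false

namespace Pool.Agent.Lib.MP_0f3a7d_alT

variable {ι : Type}

theorem mk_red (z : Wd ι) : FreeGroup.mk (red z) = FreeGroup.mk z := by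
  classical
  exact @FreeGroup.reduce.self ι z (Classical.decEq ι)

theorem red_eq {z z' : Wd ι} (h : FreeGroup.mk z = FreeGroup.mk z') : red z = red z' := @FreeGroup.reduce.sound ι z z' (Classical.decEq ι) h

theorem red_nil : red ([] : Wd ι) = [] := rfl

theorem red_of_one {z : Wd ι} (h : FreeGroup.mk z = 1) : red z = [] := by
  rw [red_eq (z' := []) (h.trans FreeGroup.one_eq_mk)]
  exact red_nil

/-- The product with a letter: cancel the first letter of the reduced word, or put the letter before it. -/
theorem red_cons (y : ι × Bool) (z : Wd ι) : red z = fl y :: red (y :: z) ∨ red (y :: z) = y :: red z := by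
  have h := @FreeGroup.reduce.cons ι z (Classical.decEq ι) y
  change red (y :: z) = _ at h
  have h1 : @FreeGroup.reduce ι (Classical.decEq ι) z = red z := rfl
  rw [h1] at h
  rcases hr : red z with _ | ⟨hd, tl⟩
  · right
    rw [hr] at h
    exact h
  · rw [hr] at h
    by_cases hy : y.1 = hd.1 ∧ y.2 = not hd.2
    · left
      have h2 : red (y :: z) = tl := by
        rw [h]
        exact if_pos hy
      rw [h2]
      congr 1
      refine Prod.ext hy.1.symm ?_
      change hd.2 = !y.2
      rw [hy.2, Bool.not_not]
    · right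
      rw [h]
      exact if_neg hy

theorem length_red (z : Wd ι) : (red z).length ≤ z.length := FreeGroup.Red.length_le (@FreeGroup.reduce.red ι z (Classical.decEq ι))

theorem mk_fl (y : ι × Bool) : FreeGroup.mk [fl y] = (FreeGroup.mk [y])⁻¹ := by
  rw [FreeGroup.inv_mk]
  rfl

theorem fl_fl (y : ι × Bool) : fl (fl y) = y := by
  simp [fl]

theorem inv_cons (y : ι × Bool) (q : Wd ι) : inv (y :: q) = inv q ++ [fl y] := by
  simp [inv, fl]

theorem inv_inv' (q : Wd ι) : inv (inv q) = q := FreeGroup.invRev_invRev

end Pool.Agent.Lib.MP_0f3a7d_alT
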