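import Mathlib
import Pool.Agent.Lib.MP_0f3a7d_alU.U1
import Pool.Agent.Lib.MP_0f3a7d_alU.U2

/-!
# MP_0f3a7d_al, leaf U4: multiplication of the verification stack by a letter

`sem_mulV`: `sem_alt`, `sem_pop` (then `wr z = Sum.inr (fl y) :: l`, so `z = fl y :: z'`, `l = wr z'`, and
`mk [y] * mk (fl y :: z') = mk z'`), `sem_push` (`z' = y :: z`). `lead_mulV`: `red_cons`.
-/

set_option autoImplicit false

namespace Pool.Agent.Lib.MP_0f3a7d_alT

variable {σ ι : Type} {k : ℕ} {v : Fin k} {s s' : Store k (σ ⊕ ι × Bool)}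

theorem sem_mulV {y : ι × Bool} {z : Wd ι} (hz : s v = wr z) (h : Sem (mulV v y) s s') :
    ∃ z' : Wd ι, s' = Function.update s v (wr z') ∧ FreeGroup.mk z' = FreeGroup.mk [y] * FreeGroup.mk z := by
  rcases sem_alt.1 h with h1 | h1
  · obtain ⟨l, hl, rfl⟩ := sem_pop.1 h1
    rw [hz] at hl
    cases z with
    | nil => cases hl
    | cons a z =>
      have h2 : (Sum.inr a : σ ⊕ ι × Bool) :: wr z = Sum.inr (fl y) :: l := hl
      obtain ⟨h3, h4⟩ := List.cons.inj h2
      have h5 : a = fl y := Sum.inr.inj h3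
      rw [h5, ← h4]
      refine ⟨z, rfl, ?_⟩
      have h6 : FreeGroup.mk (fl y :: z) = FreeGroup.mk [fl y] * FreeGroup.mk z := by
        rw [FreeGroup.mul_mk]
        rfl
      rw [h6, mk_fl, mul_inv_cancel_left]
  · rw [sem_push] at h1
    refine ⟨y :: z, ?_, ?_⟩
    · rw [h1, hz]
      rfl
    · rw [FreeGroup.mul_mk]
      rfl

theorem lead_mulV (y : ι × Bool) {z : Wd ι} (hz : s v = wr (red z)) :
    Lead 1 (mulV v y) s (Function.update s v (wr (red (y :: z)))) := by
  rcases red_cons y z with h | h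
  · refine Lead.altl (Lead.pop ?_)
    rw [hz, h]
    rfl
  · have h2 : (wr (red (y :: z)) : List (σ ⊕ ι × Bool)) = Sum.inr y :: s v := by
      rw [h, hz]
      rfl
    rw [h2]
    exact Lead.altr Lead.push

end Pool.Agent.Lib.MP_0f3a7d_alT
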