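import Mathlib
import Pool.Agent.Lib.MP_0f3a7d_alU.U4

/-!
# MP_0f3a7d_al, leaf U5: guess a word and multiply

`sem_gl`: `sem_star` and induction on `ReflTransGen` (a step pushes `Sum.inr y` on stack `i` and multiplies stack `v` by `y`,
`sem_alts`, `sem_seq`, `sem_push`, `sem_mulV`; `a` becomes `y :: a`). `lead_gl`: push the letters of `a.reverse` one after the
other: induction on a list `b` for the statement: from the store with `wr c ++ s i` on `i` and `wr (red (c ++ z))` on `v` to the
store with `wr (b.reverse ++ c) ++ s i` and `wr (red (b.reverse ++ (c ++ z)))` in time `2 |b|`.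
-/

set_option autoImplicit false

namespace Pool.Agent.Lib.MP_0f3a7d_alT

variable {σ ι : Type} [Finite ι] {k : ℕ} {v i : Fin k} {s s' : Store k (σ ⊕ ι × Bool)}

omit [Finite ι] in
private theorem U5_upd (hvi : i ≠ v) (s : Store k (σ ⊕ ι × Bool)) (X X' Z Z' : List (σ ⊕ ι × Bool)) :
    Function.update (Function.update (Function.update (Function.update s i X) v Z) i X') v Z' =
      Function.update (Function.update s i X') v Z' := by
  funext j
  by_cases h1 : j = v
  · subst h1
    rw [Function.update_self, Function.update_self]
  · rw [Function.update_of_ne h1, Function.update_of_ne h1]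
    by_cases h2 : j = i
    · subst h2
      rw [Function.update_self, Function.update_self]
    · rw [Function.update_of_ne h2, Function.update_of_ne h2, Function.update_of_ne h1, Function.update_of_ne h2]

private theorem U5_lead (hvi : i ≠ v) (b : Wd ι) : ∀ (z : Wd ι) (s : Store k (σ ⊕ ι × Bool)), s v = wr (red z) →
    Lead (2 * b.length) (gl v i) s
      (Function.update (Function.update s i (wr b.reverse ++ s i)) v (wr (red (b.reverse ++ z)))) := by
  induction b with
  | nil =>
    intro z s hz
    have h1 : wr (σ := σ) ([] : Wd ι).reverse ++ s i = s i := rfl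
    have h2 : ([] : Wd ι).reverse ++ z = z := rfl
    rw [h1, h2, Function.update_eq_self, ← hz, Function.update_eq_self]
    exact Lead.starNil
  | cons y b ih =>
    intro z s hz
    have h1 : Lead 1 (mulV v y) (Function.update s i (Sum.inr y :: s i))
        (Function.update (Function.update s i (Sum.inr y :: s i)) v (wr (red (y :: z)))) :=
      lead_mulV y (by rw [Function.update_of_ne hvi.symm, hz])
    have h2 : Lead (1 + 1) (.seq (.push i (Sum.inr y)) (mulV v y)) s
        (Function.update (Function.update s i (Sum.inr y :: s i)) v (wr (red (y :: z)))) := Lead.seq Lead.push h1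
    have h3 : Lead (1 + 1) (alts ((allL (ι × Bool)).map fun y =>
        Prog.seq (.push i (Sum.inr y)) (mulV (σ := σ) v y))) s
        (Function.update (Function.update s i (Sum.inr y :: s i)) v (wr (red (y :: z)))) :=
      Lead.alts (List.mem_map.2 ⟨y, mem_allL y, rfl⟩) h2
    have h4 := ih (y :: z) (Function.update (Function.update s i (Sum.inr y :: s i)) v (wr (red (y :: z))))
      (by rw [Function.update_self])
    have h5 := Lead.starCons h3 h4
    rw [Function.update_of_ne hvi, Function.update_self, U5_upd hvi] at h5
    have h6 : wr (σ := σ) (y :: b).reverse ++ s i = wr b.reverse ++ Sum.inr y :: s i := by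
      rw [List.reverse_cons]
      unfold wr
      rw [List.map_append, List.append_assoc]
      rfl
    have h7 : (y :: b).reverse ++ z = b.reverse ++ y :: z := by
      rw [List.reverse_cons, List.append_assoc]
      rfl
    rw [h6, h7]
    have h8 : 2 * (y :: b).length = 1 + 1 + 2 * b.length := by
      rw [List.length_cons]
      omega
    rw [h8]
    exact h5

theorem sem_gl (hvi : i ≠ v) {z : Wd ι} (hz : s v = wr z) (h : Sem (gl v i) s s') :
    ∃ a z' : Wd ι, s' = Function.update (Function.update s i (wr a ++ s i)) v (wr z') ∧
      FreeGroup.mk z' = FreeGroup.mk a * FreeGroup.mk z := by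
  have h0 : Relation.ReflTransGen (Sem (alts ((allL (ι × Bool)).map fun y =>
      Prog.seq (.push i (Sum.inr y)) (mulV (σ := σ) v y)))) s s' := sem_star.1 h
  clear h
  induction h0 with
  | refl =>
    refine ⟨[], z, ?_, ?_⟩
    · have h1 : wr (σ := σ) ([] : Wd ι) ++ s i = s i := rfl
      rw [h1, Function.update_eq_self, ← hz, Function.update_eq_self]
    · rw [← FreeGroup.one_eq_mk, one_mul]
  | tail _ h2 ih =>
    obtain ⟨a, z', rfl, hm⟩ := ih
    obtain ⟨p, hp, h3⟩ := sem_alts.1 h2
    obtain ⟨y, _, rfl⟩ := List.mem_map.1 hp
    obtain ⟨s3, h4, h5⟩ := sem_seq.1 h3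
    rw [sem_push] at h4
    subst h4
    obtain ⟨z2, rfl, hm2⟩ := sem_mulV (z := z') (by
      rw [Function.update_of_ne hvi.symm, Function.update_self]) h5
    refine ⟨y :: a, z2, ?_, ?_⟩
    · rw [Function.update_of_ne hvi, Function.update_self]
      exact U5_upd hvi s _ _ _ _
    · rw [hm2, hm, ← mul_assoc, FreeGroup.mul_mk]
      rfl

theorem lead_gl (hvi : i ≠ v) {z : Wd ι} (hz : s v = wr (red z)) (a : Wd ι) :
    Lead (2 * a.length) (gl v i) s
      (Function.update (Function.update s i (wr a ++ s i)) v (wr (red (a ++ z)))) := by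
  have h := U5_lead (σ := σ) hvi a.reverse z s hz
  rw [List.reverse_reverse, List.length_reverse] at h
  exact h

end Pool.Agent.Lib.MP_0f3a7d_alT
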