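import Mathlib
import Pool.Agent.Lib.MP_0f3a7d_alU.U4

/-!
# MP_0f3a7d_al, leaf U6: empty a stack and multiply by the inverse

`sem_un`: `sem_seq`, `sem_star`, `sem_empty`. Claim by `ReflTransGen` (head induction) or by induction on `q`: a run of the loop
from a store with `wr q` on `i` and `wr z` on `v` to a store with `[]` on `i` is `q.length` steps; it changes only `i` and `v`; a
step removes the first letter `y` of `q` and replaces `z` by `z'` with `mk z' = mk [fl y] * mk z = (mk [y])⁻¹ * mk z`. (Invariant
of the loop: `wr q1` on `i`, `wr z1` on `v`, `q = q0 ++ q1`, `mk z1 = (mk q0)⁻¹ * mk z`, the other stacks as in `s`.)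
`lead_un`: induction on `q` with `lead_mulV` (`inv (y :: q) ++ z = inv q ++ (fl y :: z)`), then `Lead.empty`.
-/

set_option autoImplicit false

namespace Pool.Agent.Lib.MP_0f3a7d_alT

variable {σ ι : Type} [Finite ι] {k : ℕ} {v i : Fin k} {s s' : Store k (σ ⊕ ι × Bool)}

omit [Finite ι] in
private theorem U6_cons {y : ι × Bool} {q : Wd ι} {l : List (σ ⊕ ι × Bool)}
    (h : (wr q : List (σ ⊕ ι × Bool)) = Sum.inr y :: l) : ∃ q' : Wd ι, q = y :: q' ∧ l = wr q' := by
  cases q with
  | nil => cases h
  | cons c q' =>
    have h1 : (Sum.inr c :: wr q' : List (σ ⊕ ι × Bool)) = Sum.inr y :: l := h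
    obtain ⟨h2, h3⟩ := List.cons.inj h1
    exact ⟨q', by rw [Sum.inr.inj h2], h3.symm⟩

omit [Finite ι] in
private theorem U6_same {a b : List (σ ⊕ ι × Bool)} (ha : s i = a) (hb : s v = b) :
    s = Function.update (Function.update s i a) v b := by
  rw [← ha, ← hb, Function.update_eq_self, Function.update_eq_self]

omit [Finite ι] in
private theorem U6_upd (a b c d : List (σ ⊕ ι × Bool)) :
    Function.update (Function.update (Function.update (Function.update s i a) v b) i c) v d =
      Function.update (Function.update s i c) v d := by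
  funext x
  simp only [Function.update_apply]
  by_cases h1 : x = v
  · simp only [if_pos h1]
  · by_cases h2 : x = i
    · simp only [if_neg h1, if_pos h2]
    · simp only [if_neg h1, if_neg h2]

theorem sem_un (hvi : i ≠ v) {z q : Wd ι} (hz : s v = wr z) (hi : s i = wr q) (h : Sem (un v i) s s') :
    ∃ z' : Wd ι, s' = Function.update (Function.update s i []) v (wr z') ∧
      FreeGroup.mk z' = (FreeGroup.mk q)⁻¹ * FreeGroup.mk z := by
  obtain ⟨s1, h1, h2⟩ := sem_seq.1 h
  obtain ⟨h3, h4⟩ := sem_empty.1 h2
  subst h4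
  have h5 := sem_star.1 h1
  clear h h1 h2
  induction h5 using Relation.ReflTransGen.head_induction_on generalizing z q with
  | refl =>
    have h6 : q = [] := by
      rw [h3] at hi
      exact List.map_eq_nil_iff.1 hi.symm
    refine ⟨z, U6_same h3 hz, ?_⟩
    rw [h6, ← FreeGroup.one_eq_mk, inv_one, one_mul]
  | head h6 h7 ih =>
    obtain ⟨p, hp, h8⟩ := sem_alts.1 h6
    obtain ⟨y, hy, rfl⟩ := List.mem_map.1 hp
    obtain ⟨s3, h9, h10⟩ := sem_seq.1 h8
    obtain ⟨l, hl, rfl⟩ := sem_pop.1 h9
    rw [hi] at hl
    obtain ⟨q', rfl, rfl⟩ := U6_cons hl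
    obtain ⟨z2, rfl, h11⟩ := sem_mulV (z := z) (by rw [Function.update_of_ne hvi.symm]; exact hz) h10
    obtain ⟨z', h12, h13⟩ := ih (z := z2) (q := q') (Function.update_self _ _ _)
      (by rw [Function.update_of_ne hvi, Function.update_self])
    rw [U6_upd] at h12
    refine ⟨z', h12, ?_⟩
    have h14 : (FreeGroup.mk (y :: q') : FreeGroup ι) = FreeGroup.mk [y] * FreeGroup.mk q' := by
      rw [FreeGroup.mul_mk]
      rfl
    rw [h13, h11, mk_fl, h14, mul_inv_rev, mul_assoc]

private theorem U6_star (hvi : i ≠ v) (q : Wd ι) : ∀ (s : Store k (σ ⊕ ι × Bool)) (z : Wd ι),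
    s v = wr (red z) → s i = wr q →
    Lead (2 * q.length) (.star (alts ((allL (ι × Bool)).map fun y =>
      .seq (.pop i (Sum.inr y)) (mulV v (fl y))))) s
      (Function.update (Function.update s i []) v (wr (red (inv q ++ z)))) := by
  induction q with
  | nil =>
    intro s z hz hi
    have h1 : Function.update (Function.update s i []) v (wr (red (inv [] ++ z))) = s :=
      (U6_same hi hz).symm
    rw [h1]
    exact Lead.starNil
  | cons y q ih =>
    intro s z hz hi
    have h1 : Lead 1 (.pop i (Sum.inr y)) s (Function.update s i (wr q)) := Lead.pop hi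
    have h2 : Lead 1 (mulV v (fl y)) (Function.update s i (wr q))
        (Function.update (Function.update s i (wr q)) v (wr (red (fl y :: z)))) :=
      lead_mulV (fl y) (by rw [Function.update_of_ne hvi.symm]; exact hz)
    have h3 := ih (Function.update (Function.update s i (wr q)) v (wr (red (fl y :: z)))) (fl y :: z)
      (Function.update_self _ _ _) (by rw [Function.update_of_ne hvi, Function.update_self])
    rw [U6_upd] at h3
    have h4 : inv (y :: q) ++ z = inv q ++ fl y :: z := by
      rw [inv_cons, List.append_assoc, List.singleton_append]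
    rw [h4]
    refine (Lead.starCons (Lead.alts (List.mem_map.2 ⟨y, mem_allL y, rfl⟩) (h1.seq h2)) h3).mono ?_
    rw [List.length_cons]
    omega

theorem lead_un (hvi : i ≠ v) {z q : Wd ι} (hz : s v = wr (red z)) (hi : s i = wr q) :
    Lead (2 * q.length + 1) (un v i) s
      (Function.update (Function.update s i []) v (wr (red (inv q ++ z)))) := by
  refine Lead.seq (U6_star hvi q s z hz hi) (Lead.empty ?_)
  rw [Function.update_of_ne hvi, Function.update_self]

end Pool.Agent.Lib.MP_0f3a7d_alT
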