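import Mathlib
import Pool.Agent.Lib.MP_0f3a7d_alU.U3
import Pool.Agent.Lib.MP_0f3a7d_alU.U5
import Pool.Agent.Lib.MP_0f3a7d_alU.U6

/-!
# MP_0f3a7d_al, leaf U8: one conjugate

`rd j` = `gl (sV m) (sP m)` (guess `q`), `gl (sV m) (sU j)` (guess `a`), `un (sV m) (sP m)`. With `stA_*` and `upd_*` (U3):
`wr a ++ wr b = wr (a ++ b)`. The words on the verification stack: `z`, `z1` with `mk z1 = mk q * mk z`, `z2` with
`mk z2 = mk a * mk z1`, `z'` with `mk z' = (mk q)⁻¹ * mk z2`.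
-/

set_option autoImplicit false

namespace Pool.Agent.Lib.MP_0f3a7d_alT

variable {σ ι : Type} [Finite ι] {m : ℕ} {j : Fin m} {x : List σ} {w z : Wd ι} {u : Fin m → Wd ι}
  {s' : Store (m + 5) (σ ⊕ ι × Bool)}

omit [Finite ι] in
private theorem U8_wr (a b : Wd ι) : (wr a ++ wr b : List (σ ⊕ ι × Bool)) = wr (a ++ b) :=
  List.map_append.symm

omit [Finite ι] in
private theorem U8_wr_nil : (wr ([] : Wd ι) : List (σ ⊕ ι × Bool)) = [] := rfl

omit [Finite ι] in
private theorem U8_upd1 (q z' : Wd ι) : Function.update (Function.update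
    (stA m x w z [] u : Store (m + 5) (σ ⊕ ι × Bool)) (sP m) (wr q ++ stA m x w z [] u (sP m))) (sV m) (wr z') =
    stA m x w z' q u := by
  rw [stA_sP, U8_wr, List.append_nil, upd_sP, upd_sV]

omit [Finite ι] in
private theorem U8_upd2 (q a z' : Wd ι) : Function.update (Function.update
    (stA m x w z q u : Store (m + 5) (σ ⊕ ι × Bool)) (sU j) (wr a ++ stA m x w z q u (sU j))) (sV m) (wr z') =
    stA m x w z' q (Function.update u j (a ++ u j)) := by
  rw [stA_sU, U8_wr, upd_sU, upd_sV]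

omit [Finite ι] in
private theorem U8_upd3 (q z' : Wd ι) : Function.update (Function.update
    (stA m x w z q u : Store (m + 5) (σ ⊕ ι × Bool)) (sP m) []) (sV m) (wr z') =
    stA m x w z' [] u := by
  rw [← U8_wr_nil, upd_sP, upd_sV]

theorem sem_rd (h : Sem (rd j) (stA m x w z [] u) s') :
    ∃ q a z' : Wd ι, s' = stA m x w z' [] (Function.update u j (a ++ u j)) ∧
      FreeGroup.mk z' = (FreeGroup.mk q)⁻¹ * FreeGroup.mk a * FreeGroup.mk q * FreeGroup.mk z := by
  unfold rd at h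
  rw [sem_seq] at h
  obtain ⟨s1, h1, h⟩ := h
  rw [sem_seq] at h
  obtain ⟨s2, h2, h3⟩ := h
  obtain ⟨q, z1, e1, m1⟩ := sem_gl sV_ne_sP.symm stA_sV h1
  rw [U8_upd1] at e1
  rw [e1] at h2
  obtain ⟨a, z2, e2, m2⟩ := sem_gl (sU_ne_sV j) stA_sV h2
  rw [U8_upd2] at e2
  rw [e2] at h3
  obtain ⟨z', e3, m3⟩ := sem_un sV_ne_sP.symm stA_sV stA_sP h3
  rw [U8_upd3] at e3
  refine ⟨q, a, z', e3, ?_⟩
  rw [m3, m2, m1, mul_assoc, mul_assoc]

theorem lead_rd (q a : Wd ι) : Lead (4 * q.length + 2 * a.length + 1) (rd j) (stA m x w (red z) [] u)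
    (stA m x w (red (inv q ++ (a ++ (q ++ z)))) [] (Function.update u j (a ++ u j))) := by
  have h1 : Lead (2 * q.length) (gl (sV m) (sP m)) (stA m x w (red z) [] u : Store (m + 5) (σ ⊕ ι × Bool))
      (stA m x w (red (q ++ z)) q u) := by
    have h := lead_gl (s := (stA m x w (red z) [] u : Store (m + 5) (σ ⊕ ι × Bool))) sV_ne_sP.symm stA_sV q
    rwa [U8_upd1] at h
  have h2 : Lead (2 * a.length) (gl (sV m) (sU j)) (stA m x w (red (q ++ z)) q u : Store (m + 5) (σ ⊕ ι × Bool))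
      (stA m x w (red (a ++ (q ++ z))) q (Function.update u j (a ++ u j))) := by
    have h := lead_gl (s := (stA m x w (red (q ++ z)) q u : Store (m + 5) (σ ⊕ ι × Bool))) (sU_ne_sV j) stA_sV a
    rwa [U8_upd2] at h
  have h3 : Lead (2 * q.length + 1) (un (sV m) (sP m))
      (stA m x w (red (a ++ (q ++ z))) q (Function.update u j (a ++ u j)) : Store (m + 5) (σ ⊕ ι × Bool))
      (stA m x w (red (inv q ++ (a ++ (q ++ z)))) [] (Function.update u j (a ++ u j))) := by
    have h := lead_un (s := (stA m x w (red (a ++ (q ++ z))) q (Function.update u j (a ++ u j)) :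
      Store (m + 5) (σ ⊕ ι × Bool))) sV_ne_sP.symm stA_sV stA_sP
    rwa [U8_upd3] at h
  unfold rd
  exact (h1.seq (h2.seq h3)).mono (by omega)

end Pool.Agent.Lib.MP_0f3a7d_alT
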