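import Mathlib
import Pool.Agent.Lib.MP_0f3a7d_alU.U8

/-!
# MP_0f3a7d_al, leaf U9: all conjugates

Induction on `l`. `rds (j :: l) = .seq (rds l) (rd j)`: first the conjugates for `l`, then the one for `j`, which is multiplied
from the left. `j ∉ l`, so the stack `sU j` is empty before `rd j`; the new functions are `Function.update q j q'`,
`Function.update a j a'`, and the product over `l` does not change.
-/

set_option autoImplicit false

namespace Pool.Agent.Lib.MP_0f3a7d_alT

variable {σ ι : Type} [Finite ι] {m : ℕ} {x : List σ} {w : Wd ι} {l : List (Fin m)}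
  {s' : Store (m + 5) (σ ⊕ ι × Bool)}

omit [Finite ι] in
private theorem U9_nil (a : Fin m → Wd ι) : (fun j => if j ∈ ([] : List (Fin m)) then a j else []) = fun _ => [] :=
  funext fun _ => if_neg List.not_mem_nil

omit [Finite ι] in
private theorem U9_upd {l : List (Fin m)} {j : Fin m} (hj : j ∉ l) (a : Fin m → Wd ι) (c : Wd ι) :
    Function.update (fun i => if i ∈ l then a i else []) j (c ++ (fun i => if i ∈ l then a i else []) j) =
      fun i => if i ∈ j :: l then Function.update a j c i else [] := by
  funext i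
  by_cases h : i = j
  · subst h
    simp [hj]
  · rw [Function.update_of_ne h, Function.update_of_ne h]
    exact if_congr ⟨fun h' => List.mem_cons_of_mem _ h', fun h' => (List.mem_cons.1 h').resolve_left h⟩ rfl rfl

omit [Finite ι] in
private theorem U9_prod {l : List (Fin m)} {j : Fin m} (hj : j ∉ l) (q a : Fin m → Wd ι) (q' a' : Wd ι) :
    (l.map fun i => (FreeGroup.mk (Function.update q j q' i))⁻¹ * FreeGroup.mk (Function.update a j a' i) *
        FreeGroup.mk (Function.update q j q' i)).prod =
      (l.map fun i => (FreeGroup.mk (q i))⁻¹ * FreeGroup.mk (a i) * FreeGroup.mk (q i)).prod := by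
  refine congrArg List.prod (List.map_congr_left fun i hi => ?_)
  have h : i ≠ j := fun h => hj (h ▸ hi)
  rw [Function.update_of_ne h, Function.update_of_ne h]

theorem sem_rds (hl : l.Nodup) (h : Sem (rds l) (stA m x w [] [] fun _ => []) s') :
    ∃ (q a : Fin m → Wd ι) (z : Wd ι), s' = stA m x w z [] (fun j => if j ∈ l then a j else []) ∧
      FreeGroup.mk z =
        (l.map fun j => (FreeGroup.mk (q j))⁻¹ * FreeGroup.mk (a j) * FreeGroup.mk (q j)).prod := by
  induction l generalizing s' with
  | nil =>
    have h1 : Sem .one (stA m x w [] [] fun _ => []) s' := h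
    rw [sem_one] at h1
    refine ⟨fun _ => [], fun _ => [], [], ?_, ?_⟩
    · rw [h1, U9_nil]
    · rw [List.map_nil, List.prod_nil, ← FreeGroup.one_eq_mk]
  | cons j l ih =>
    obtain ⟨hj, hl'⟩ := List.nodup_cons.1 hl
    have h1 : Sem (.seq (rds l) (rd j)) (stA m x w [] [] fun _ => []) s' := h
    rw [sem_seq] at h1
    obtain ⟨s1, h2, h3⟩ := h1
    obtain ⟨q, a, z, rfl, hz⟩ := ih hl' h2
    obtain ⟨q', a', z', rfl, hz'⟩ := sem_rd h3
    refine ⟨Function.update q j q', Function.update a j a', z', ?_, ?_⟩
    · rw [U9_upd hj]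
    · rw [List.map_cons, List.prod_cons, U9_prod hj, Function.update_self, Function.update_self, hz', hz]

theorem lead_rds (hl : l.Nodup) (q a : Fin m → Wd ι) :
    ∃ z : Wd ι, Lead ((l.map fun j => 4 * (q j).length + 2 * (a j).length + 1).sum) (rds l)
        (stA m x w [] [] fun _ => []) (stA m x w (red z) [] (fun j => if j ∈ l then a j else [])) ∧
      FreeGroup.mk z =
        (l.map fun j => (FreeGroup.mk (q j))⁻¹ * FreeGroup.mk (a j) * FreeGroup.mk (q j)).prod := by
  induction l with
  | nil =>
    refine ⟨[], ?_, ?_⟩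
    · have h1 : stA m x w (red []) [] (fun j => if j ∈ ([] : List (Fin m)) then a j else []) =
          stA m x w [] [] fun _ => [] := by
        rw [red_nil, U9_nil]
      rw [h1]
      exact Lead.one
    · rw [List.map_nil, List.prod_nil, ← FreeGroup.one_eq_mk]
  | cons j l ih =>
    obtain ⟨hj, hl'⟩ := List.nodup_cons.1 hl
    obtain ⟨z, h1, hz⟩ := ih hl'
    refine ⟨inv (q j) ++ (a j ++ (q j ++ z)), ?_, ?_⟩
    · have h2 := lead_rd (j := j) (x := x) (w := w) (z := z) (u := fun i => if i ∈ l then a i else []) (q j) (a j)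
      have h3 := h1.seq h2
      rw [U9_upd hj, Function.update_eq_self] at h3
      rw [List.map_cons, List.sum_cons]
      exact h3.mono (Nat.add_comm _ _).le
    · rw [List.map_cons, List.prod_cons, ← hz, ← FreeGroup.mul_mk, ← FreeGroup.mul_mk, ← FreeGroup.mul_mk, mk_inv]
      simp only [mul_assoc]

end Pool.Agent.Lib.MP_0f3a7d_alT
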