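import Mathlib
import Pool.Agent.Lib.MP_0f3a7d_alU.U9

/-!
# MP_0f3a7d_al, leaf U10: the existential part

`exP m` = `rds (List.finRange m)`, `un (sV m) (sW m)`, `.empty (sV m)`. `List.nodup_finRange`, `List.mem_finRange` (so
`(fun j => if j ∈ List.finRange m then a j else []) = a`). After `un` the verification word `z'` has
`mk z' = (mk w)⁻¹ * prod`; it is empty at the end (`wr z' = []` so `z' = []`), hence `mk w = prod`. `lead_exP`: the same with
`red_of_one` for `inv w ++ z`.
-/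

set_option autoImplicit false

namespace Pool.Agent.Lib.MP_0f3a7d_alT

private theorem U10_all {ι : Type} {m : ℕ} (a : Fin m → Wd ι) : (fun j => if j ∈ List.finRange m then a j else []) = a := by
  funext j
  rw [if_pos (List.mem_finRange j)]

private theorem U10_wr_nil {σ ι : Type} : wr (σ := σ) ([] : Wd ι) = [] := rfl

variable {σ ι : Type} [Finite ι] {m : ℕ} {x : List σ} {w : Wd ι} {s' : Store (m + 5) (σ ⊕ ι × Bool)}

theorem sem_exP (h : Sem (exP m) (stA m x w [] [] fun _ => []) s') :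
    ∃ q a : Fin m → Wd ι, s' = stA m x [] [] [] a ∧ FreeGroup.mk w =
      ((List.finRange m).map fun j =>
        (FreeGroup.mk (q j))⁻¹ * FreeGroup.mk (a j) * FreeGroup.mk (q j)).prod := by
  obtain ⟨s1, h1, h2⟩ := sem_seq.1 h
  obtain ⟨s2, h3, h4⟩ := sem_seq.1 h2
  obtain ⟨q, a, z, rfl, hz⟩ := sem_rds (List.nodup_finRange m) h1
  rw [U10_all] at h3
  obtain ⟨z', h5, h6⟩ := sem_un (sV_ne_sW.symm) stA_sV stA_sW h3
  rw [← U10_wr_nil, upd_sW, upd_sV] at h5
  rw [sem_empty] at h4
  obtain ⟨h7, h8⟩ := h4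
  rw [h5, stA_sV] at h7
  have h9 : z' = [] := List.map_eq_nil_iff.1 h7
  subst h9
  refine ⟨q, a, by rw [h8, h5], ?_⟩
  rw [← hz]
  have h10 : (1 : FreeGroup ι) = (FreeGroup.mk w)⁻¹ * FreeGroup.mk z := h6
  exact inv_mul_eq_one.1 h10.symm

theorem lead_exP (x : List σ) {w : Wd ι} (q a : Fin m → Wd ι) (hw : FreeGroup.mk w =
      ((List.finRange m).map fun j =>
        (FreeGroup.mk (q j))⁻¹ * FreeGroup.mk (a j) * FreeGroup.mk (q j)).prod) :
    Lead (((List.finRange m).map fun j => 4 * (q j).length + 2 * (a j).length + 1).sum + 2 * w.length + 2)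
      (exP m) (stA m x w [] [] fun _ => []) (stA m x [] [] [] a) := by
  obtain ⟨z, h1, hz⟩ := lead_rds (x := x) (w := w) (List.nodup_finRange m) q a
  rw [U10_all] at h1
  have h2 := lead_un (v := sV m) (i := sW m) (s := stA m x w (red z) [] a) (z := z) (q := w)
    (sV_ne_sW.symm) stA_sV stA_sW
  have h3 : red (inv w ++ z) = [] := by
    apply red_of_one
    rw [← FreeGroup.mul_mk, mk_inv, hz, hw]
    exact inv_mul_cancel _
  rw [h3, ← U10_wr_nil, upd_sW, upd_sV] at h2
  have h4 : Lead 1 (.empty (sV m)) (stA m x [] [] [] a) (stA m x [] [] [] a) :=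
    Lead.empty (by rw [stA_sV]; rfl)
  have h5 := Lead.seq h1 (Lead.seq h2 h4)
  exact h5.mono (by omega)

end Pool.Agent.Lib.MP_0f3a7d_alT
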