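import Mathlib
import Pool.Agent.Lib.MP_0f3a7d_alU.U1
import Pool.Agent.Lib.MP_0f3a7d_alU.U2

/-!
# MP_0f3a7d_al, leaf U7: empty a stack and put the inverse word on another one

`sem_tr`: `sem_seq`, `sem_star`, `sem_empty`; invariant of the loop: `q = q0 ++ q1`, `wr q1` on `i`, `wr (inv q0) ++ s w` on `w`,
the other stacks as in `s` (a step pops `y` and pushes `fl y`; `inv (q0 ++ [y]) = fl y :: inv q0`). `lead_tr`: induction on `q1`
for the same statement, 2 actions per letter, then `Lead.empty`.
-/

set_option autoImplicit false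

namespace Pool.Agent.Lib.MP_0f3a7d_alT

variable {σ ι : Type} [Finite ι] {k : ℕ} {w i : Fin k} {s s' : Store k (σ ⊕ ι × Bool)}

/-- The result of one round. -/
private def U7res (i w : Fin k) (y : ι × Bool) (l : List (σ ⊕ ι × Bool)) (s : Store k (σ ⊕ ι × Bool)) :
    Store k (σ ⊕ ι × Bool) :=
  Function.update (Function.update s i l) w (Sum.inr (fl y) :: (Function.update s i l) w)

omit [Finite ι] in
private theorem U7_res_i (hiw : i ≠ w) (y : ι × Bool) (l : List (σ ⊕ ι × Bool)) : U7res i w y l s i = l := by
  unfold U7res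
  rw [Function.update_of_ne hiw, Function.update_self]

omit [Finite ι] in
private theorem U7_res_w (hiw : i ≠ w) (y : ι × Bool) (l : List (σ ⊕ ι × Bool)) :
    U7res i w y l s w = Sum.inr (fl y) :: s w := by
  unfold U7res
  rw [Function.update_self, Function.update_of_ne hiw.symm]

omit [Finite ι] in
private theorem U7_nil (hs : s i = []) :
    Function.update (Function.update s i []) w (wr (inv ([] : Wd ι)) ++ s w) = s := by
  have h1 : Function.update s i [] = s := by
    rw [← hs, Function.update_eq_self]
  rw [h1]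
  exact Function.update_eq_self _ _

private theorem U7_cons (hiw : i ≠ w) (y : ι × Bool) (q : Wd ι) (l : List (σ ⊕ ι × Bool)) :
    Function.update (Function.update (U7res i w y l s) i []) w (wr (inv q) ++ U7res i w y l s w) =
      Function.update (Function.update s i []) w (wr (inv (y :: q)) ++ s w) := by
  rw [U7_res_w hiw, inv_cons]
  have h1 : (wr (inv q ++ [fl y]) : List (σ ⊕ ι × Bool)) ++ s w = wr (inv q) ++ Sum.inr (fl y) :: s w := by
    unfold wr
    rw [List.map_append, List.append_assoc]
    rfl
  rw [h1]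
  funext x
  by_cases hx : x = w
  · rw [hx, Function.update_self, Function.update_self]
  · rw [Function.update_of_ne hx, Function.update_of_ne hx]
    by_cases hi : x = i
    · rw [hi, Function.update_self, Function.update_self]
    · rw [Function.update_of_ne hi, Function.update_of_ne hi]
      unfold U7res
      rw [Function.update_of_ne hx, Function.update_of_ne hi]

omit [Finite ι] in
private theorem U7_split {q : Wd ι} {y : ι × Bool} {l : List (σ ⊕ ι × Bool)} (h : wr q = Sum.inr y :: l) :
    ∃ q', q = y :: q' ∧ l = wr q' := by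
  cases q with
  | nil => cases h
  | cons z q' =>
    have h1 : (Sum.inr z : σ ⊕ ι × Bool) :: wr q' = Sum.inr y :: l := h
    rw [List.cons.injEq] at h1
    obtain ⟨h2, h3⟩ := h1
    have h4 : z = y := Sum.inr.inj h2
    exact ⟨q', by rw [h4], h3.symm⟩

private theorem U7_sem_star (hiw : i ≠ w)
    (h : Relation.ReflTransGen (Sem (alts ((allL (ι × Bool)).map fun y =>
      (Prog.seq (.pop i (Sum.inr y)) (.push w (Sum.inr (fl y))) : Prog k (σ ⊕ ι × Bool))))) s s')
    (h' : s' i = []) : ∀ q : Wd ι, s i = wr q →
      s' = Function.update (Function.update s i []) w (wr (inv q) ++ s w) := by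
  induction h using Relation.ReflTransGen.head_induction_on with
  | refl =>
    intro q hq
    rw [h'] at hq
    cases q with
    | nil => exact (U7_nil h').symm
    | cons y q => cases hq
  | @head s1 s2 h6 h7 ih =>
    intro q hq
    obtain ⟨p, hp, h8⟩ := sem_alts.1 h6
    obtain ⟨y, -, rfl⟩ := List.mem_map.1 hp
    obtain ⟨s3, h9, h10⟩ := sem_seq.1 h8
    obtain ⟨l, hl, rfl⟩ := sem_pop.1 h9
    have h11 : s2 = U7res i w y l s1 := sem_push.1 h10
    subst h11
    rw [hq] at hl
    obtain ⟨q', rfl, rfl⟩ := U7_split hl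
    have h12 := ih q' (U7_res_i hiw y _)
    rw [h12]
    exact U7_cons hiw y q' _

theorem sem_tr (hiw : i ≠ w) {q : Wd ι} (hi : s i = wr q) (h : Sem (tr i w) s s') :
    s' = Function.update (Function.update s i []) w (wr (inv q) ++ s w) := by
  obtain ⟨s1, h1, h2⟩ := sem_seq.1 h
  obtain ⟨h3, h4⟩ := sem_empty.1 h2
  subst h4
  exact U7_sem_star hiw (sem_star.1 h1) h3 q hi

private theorem U7_lead_star (hiw : i ≠ w) (q : Wd ι) : ∀ s : Store k (σ ⊕ ι × Bool), s i = wr q →
    Lead (2 * q.length) (.star (alts ((allL (ι × Bool)).map fun y =>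
      (Prog.seq (.pop i (Sum.inr y)) (.push w (Sum.inr (fl y))) : Prog k (σ ⊕ ι × Bool))))) s
      (Function.update (Function.update s i []) w (wr (inv q) ++ s w)) := by
  induction q with
  | nil =>
    intro s hs
    have hs' : s i = [] := hs
    rw [U7_nil hs']
    exact Lead.starNil
  | cons y q ih =>
    intro s hs
    have hs' : s i = Sum.inr y :: wr q := hs
    have h1 : Lead 1 (.pop i (Sum.inr y)) s (Function.update s i (wr q)) := Lead.pop hs'
    have h2 : Lead 1 (.push w (Sum.inr (fl y))) (Function.update s i (wr q)) (U7res i w y (wr q) s) := Lead.push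
    have h3 := ih (U7res i w y (wr q) s) (U7_res_i hiw y _)
    rw [U7_cons hiw y q] at h3
    have hm : (Prog.seq (.pop i (Sum.inr y)) (.push w (Sum.inr (fl y))) : Prog k (σ ⊕ ι × Bool)) ∈
        (allL (ι × Bool)).map fun y => (Prog.seq (.pop i (Sum.inr y)) (.push w (Sum.inr (fl y))) :
          Prog k (σ ⊕ ι × Bool)) := List.mem_map.2 ⟨y, mem_allL y, rfl⟩
    have h4 := Lead.starCons (Lead.alts hm (Lead.seq h1 h2)) h3
    refine Lead.mono ?_ h4
    rw [List.length_cons]
    omega

theorem lead_tr (hiw : i ≠ w) {q : Wd ι} (hi : s i = wr q) :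
    Lead (2 * q.length + 1) (tr i w) s (Function.update (Function.update s i []) w (wr (inv q) ++ s w)) := by
  refine Lead.seq (U7_lead_star hiw q s hi) (Lead.empty ?_)
  rw [Function.update_of_ne hiw, Function.update_self]

end Pool.Agent.Lib.MP_0f3a7d_alT
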