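import Mathlib
import Pool.Agent.Lib.MP_0f3a7d_alU.U3
import Pool.Agent.Lib.MP_0f3a7d_alU.U7

/-!
# MP_0f3a7d_al, leaf U11: the branches and the end

`brP j` = `tr (sU j) (sW m)` (U7: stack `sU j` is empty after it, `wr (inv (a j))` is on `sW m`), then `clear` for all `sU i`. For
the second part: for a list `l` of numbers the program `seqs (l.map fun i => clear A (sU i))` leads from `stA m x w [] [] a` to
`stA m x w [] [] (fun i => if i ∈ l then [] else a i)` (induction on `l`; `sem_clear`, `Lead.clear`; all letters `Sum.inr y` are in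
the list `A`, `mem_allL`); time at most the sum of the `(a i).length + 1`. `stP`: `sem_alts`, `sem_popW` (`wr w = wr r ++ l` with
`l = []` by `sem_empty`; `wr` is injective), `Lead.alts`, `Lead.popW`, `Lead.empty`.
-/

set_option autoImplicit false

namespace Pool.Agent.Lib.MP_0f3a7d_alT

variable {σ ι : Type} {m : ℕ} {x : List σ} {w : Wd ι} {s' : Store (m + 5) (σ ⊕ ι × Bool)}

private theorem U11_upd (w : Wd ι) (a : Fin m → Wd ι) (i : Fin m) :
    Function.update (stA m x w [] [] a) (sU i) [] = stA m x w [] [] (Function.update a i []) :=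
  upd_sU i []

private theorem U11_updW (w' : Wd ι) (a : Fin m → Wd ι) :
    Function.update (stA m x ([] : Wd ι) [] [] a) (sW m) (wr w' ++ stA m x ([] : Wd ι) [] [] a (sW m)) =
      stA m x w' [] [] a := by
  rw [stA_sW]
  have h : (wr w' : List (σ ⊕ ι × Bool)) ++ wr [] = wr w' := List.append_nil _
  rw [h]
  exact upd_sW w'

private theorem U11_fun (a : Fin m → Wd ι) (i : Fin m) (l : List (Fin m)) :
    (fun k => if k ∈ l then ([] : Wd ι) else Function.update a i [] k) =
      fun k => if k ∈ i :: l then ([] : Wd ι) else a k := by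
  funext k
  by_cases hk : k = i
  · subst hk
    rw [if_pos List.mem_cons_self, Function.update_self]
    split_ifs <;> rfl
  · rw [Function.update_of_ne hk]
    by_cases hl : k ∈ l
    · rw [if_pos hl, if_pos (List.mem_cons_of_mem _ hl)]
    · rw [if_neg hl, if_neg (by
        rw [List.mem_cons, not_or]
        exact ⟨hk, hl⟩)]

private theorem U11_sem [Finite ι] (A : List (σ ⊕ ι × Bool)) (l : List (Fin m)) :
    ∀ (a : Fin m → Wd ι) (s' : Store (m + 5) (σ ⊕ ι × Bool)),
      Sem (seqs (l.map fun i => clear A (sU i))) (stA m x w [] [] a) s' →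
      s' = stA m x w [] [] (fun i => if i ∈ l then [] else a i) := by
  induction l with
  | nil =>
    intro a s' h
    have h1 : Sem (.one : Prog (m + 5) (σ ⊕ ι × Bool)) (stA m x w [] [] a) s' := h
    rw [sem_one] at h1
    rw [h1]
    congr 1
  | cons i l ih =>
    intro a s' h
    have h1 : Sem (.seq (clear A (sU i)) (seqs (l.map fun i => clear A (sU i)))) (stA m x w [] [] a) s' := h
    rw [sem_seq] at h1
    obtain ⟨s1, h2, h3⟩ := h1
    have h4 := sem_clear h2
    rw [U11_upd] at h4
    subst h4
    have h5 := ih _ _ h3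
    rw [h5, U11_fun]

private theorem U11_sum (a : Fin m → Wd ι) (i : Fin m) (l : List (Fin m)) :
    (l.map fun k => (Function.update a i [] k).length + 1).sum ≤ (l.map fun k => (a k).length + 1).sum := by
  refine List.sum_le_sum fun k _ => ?_
  by_cases hk : k = i
  · subst hk
    rw [Function.update_self, List.length_nil]
    omega
  · rw [Function.update_of_ne hk]

private theorem U11_mem [Finite ι] (b : Wd ι) : ∀ c ∈ (wr b : List (σ ⊕ ι × Bool)),
    c ∈ (allL (ι × Bool)).map (Sum.inr : ι × Bool → σ ⊕ ι × Bool) := by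
  intro c hc
  obtain ⟨y, _, rfl⟩ := List.mem_map.1 hc
  exact List.mem_map.2 ⟨y, mem_allL y, rfl⟩

private theorem U11_len (b : Wd ι) : (wr b : List (σ ⊕ ι × Bool)).length = b.length := List.length_map _

private theorem U11_lead [Finite ι] (x : List σ) (w : Wd ι) (l : List (Fin m)) : ∀ (a : Fin m → Wd ι),
      Lead ((l.map fun i => (a i).length + 1).sum)
        (seqs (l.map fun i => clear ((allL (ι × Bool)).map Sum.inr) (sU i))) (stA m x w [] [] a)
        (stA m x w [] [] (fun i => if i ∈ l then [] else a i)) := by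
  induction l with
  | nil =>
    intro a
    have h1 : (fun i => if i ∈ ([] : List (Fin m)) then ([] : Wd ι) else a i) = a := by
      funext k
      rw [if_neg List.not_mem_nil]
    rw [h1]
    exact Lead.one
  | cons i l ih =>
    intro a
    have h1 : Lead ((stA m x w [] [] a (sU i)).length + 1)
        (clear ((allL (ι × Bool)).map Sum.inr) (sU i)) (stA m x w [] [] a)
        (Function.update (stA m x w [] [] a) (sU i) []) := by
      apply Lead.clear
      rw [stA_sU]
      exact U11_mem (a i)
    rw [U11_upd, stA_sU, U11_len] at h1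
    have h2 := Lead.mono (U11_sum a i l) (ih (Function.update a i []))
    rw [U11_fun] at h2
    have h3 := Lead.seq h1 h2
    rw [List.map_cons, List.sum_cons]
    exact h3

private theorem U11_all (a : Fin m → Wd ι) :
    (fun i => if i ∈ List.finRange m then ([] : Wd ι) else a i) = fun _ => [] := by
  funext i
  rw [if_pos (List.mem_finRange i)]

theorem sem_brP [Finite ι] {j : Fin m} {a : Fin m → Wd ι} (h : Sem (brP j) (stA m x [] [] [] a) s') :
    s' = stA m x (inv (a j)) [] [] fun _ => [] := by
  have h0 : Sem (.seq (tr (sU j) (sW m))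
      (seqs ((List.finRange m).map fun i => clear ((allL (ι × Bool)).map Sum.inr) (sU i))))
      (stA m x [] [] [] a) s' := h
  rw [sem_seq] at h0
  obtain ⟨s1, h1, h2⟩ := h0
  have h3 := sem_tr (sU_ne_sW j) (stA_sU j) h1
  have hW : (stA m x ([] : Wd ι) [] [] a : Store (m + 5) (σ ⊕ ι × Bool)) (sW m) =
      stA m x ([] : Wd ι) [] [] (Function.update a j []) (sW m) := by
    rw [stA_sW, stA_sW]
  rw [U11_upd, hW, U11_updW] at h3
  subst h3
  have h4 := U11_sem _ _ _ _ h2
  rw [h4, U11_all]

theorem lead_brP [Finite ι] (x : List σ) (j : Fin m) (a : Fin m → Wd ι) :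
    Lead (2 * (a j).length + 1 + ((List.finRange m).map fun i => (a i).length + 1).sum) (brP j)
      (stA m x [] [] [] a) (stA m x (inv (a j)) [] [] fun _ => []) := by
  have h1 := lead_tr (s := stA m x ([] : Wd ι) [] [] a) (sU_ne_sW j) (stA_sU j)
  have hW : (stA m x ([] : Wd ι) [] [] a : Store (m + 5) (σ ⊕ ι × Bool)) (sW m) =
      stA m x ([] : Wd ι) [] [] (Function.update a j []) (sW m) := by
    rw [stA_sW, stA_sW]
  rw [U11_upd, hW, U11_updW] at h1
  have h2 := Lead.mono (U11_sum a j (List.finRange m))
    (U11_lead x (inv (a j)) (List.finRange m) (Function.update a j []))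
  rw [U11_all] at h2
  exact Lead.seq h1 h2

theorem sem_stP {R : List (Wd ι)} (h : Sem (stP m R) (stA m x w [] [] fun _ => []) s') : w ∈ R := by
  have h0 : Sem (alts (R.map fun r => .seq (popW (sW m) (wr r)) (.empty (sW m))))
      (stA m x w [] [] fun _ => []) s' := h
  rw [sem_alts] at h0
  obtain ⟨p, hp, h1⟩ := h0
  obtain ⟨r, hr, rfl⟩ := List.mem_map.1 hp
  rw [sem_seq] at h1
  obtain ⟨s1, h2, h3⟩ := h1
  rw [sem_popW] at h2
  obtain ⟨l, h4, rfl⟩ := h2
  rw [sem_empty] at h3
  have h5 := h3.1
  rw [Function.update_self] at h5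
  rw [h5, List.append_nil, stA_sW] at h4
  have h6 : w = r := List.map_injective_iff.2 Sum.inr_injective h4
  rw [h6]
  exact hr

theorem lead_stP (x : List σ) {w : Wd ι} {R : List (Wd ι)} (hw : w ∈ R) :
    ∃ s', Lead (w.length + 1) (stP m R) (stA m x w [] [] fun _ => []) s' := by
  refine ⟨Function.update (stA m x w [] [] fun _ => []) (sW m) [], ?_⟩
  have h1 : Lead (wr w : List (σ ⊕ ι × Bool)).length (popW (sW m) (wr w))
      (stA m x w [] [] fun _ => []) (Function.update (stA m x w [] [] fun _ => []) (sW m) []) := by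
    apply Lead.popW
    rw [stA_sW, List.append_nil]
  have h2 : Lead 1 (.empty (sW m) : Prog (m + 5) (σ ⊕ ι × Bool))
      (Function.update (stA m x w [] [] fun _ => []) (sW m) [])
      (Function.update (stA m x w [] [] fun _ => []) (sW m) []) :=
    Lead.empty (Function.update_self _ _ _)
  have h3 := Lead.seq h1 h2
  rw [U11_len] at h3
  exact Lead.alts (List.mem_map.2 ⟨w, hw, rfl⟩) h3

end Pool.Agent.Lib.MP_0f3a7d_alT
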