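import Mathlib
import Pool.Agent.Lib.MP_0f3a7d_alU.U10
import Pool.Agent.Lib.MP_0f3a7d_alU.U11

/-!
# MP_0f3a7d_al, leaf U13: monotony, soundness

`Win.mono`: induction on `Win` (generalise `T'`, `d'`; `d' = d'' + 1` in the case `round`). `win_sound`: induction on `Win` with
`x`, `w` generalised. `stop`: `sem_stP`, `w ∈ R`. `round`: `sem_exP` gives `q`, `a`, `s' = stA m x [] [] [] a` and `mk w` as a product
of conjugates of the `mk (a j)`; by `sem_brP` the store `f j` is `stA m x (inv (a j)) [] [] _`, so `val g (inv (a j)) = 1` by the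
induction hypothesis, `val g (a j) = 1` (`val_inv`), and `val g w = 1` by `val_eq_lift` (`map_list_prod`).
-/

set_option autoImplicit false

namespace Pool.Agent.Lib.MP_0f3a7d_alT

theorem AMachine.Win.mono {σ : Type} {M : AMachine σ} {T T' d d' : ℕ} {s : Store (M.k + 1) M.Γ} (hT : T ≤ T')
    (hd : d ≤ d') (h : M.Win T d s) : M.Win T' d' s := by
  induction h generalizing T' d' with
  | stop T d t s s' h ht => exact AMachine.Win.stop _ _ t s s' h (ht.trans hT)
  | round T d t s s' h ht u T₁ f h1 h2 h3 ih =>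
    obtain ⟨e, rfl⟩ : ∃ e, d' = e + 1 := ⟨d' - 1, by omega⟩
    exact AMachine.Win.round _ _ t s s' h (ht.trans hT) u T₁ f h1 (fun j => (h2 j).trans hT)
      (fun j => ih j le_rfl (by omega))

private theorem U13_step {σ ι H : Type} [Finite σ] [Finite ι] [Group H] {g : ι → H} {m : ℕ} {R : List (Wd ι)}
    {A : σ → Wd ι} {U T : Wd ι} (x : List σ) {t : ℕ} {w : Wd ι}
    {s' : Store ((AltM m R A U T).k + 1) (AltM m R A U T).Γ}
    (h : Leads (AltM m R A U T).ex t (stA m x w [] [] fun _ => [] : Store (m + 5) (σ ⊕ ι × Bool)) s')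
    {u : Fin m → ℕ} {f : Fin m → Store ((AltM m R A U T).k + 1) (AltM m R A U T).Γ}
    (h1 : ∀ j : Fin m, Leads ((AltM m R A U T).br j) (u j) s' (f j))
    (ih : ∀ (j : Fin m) (w : Wd ι), f j = (stA m x w [] [] fun _ => [] : Store (m + 5) (σ ⊕ ι × Bool)) →
      val g w = 1) : val g w = 1 := by
  obtain ⟨b, hb⟩ := h
  obtain ⟨q, a, hs', hmk⟩ := sem_exP (x := x) (w := w) (s' := s') ⟨b, t, hb⟩
  have h4 : ∀ j : Fin m, val g (a j) = 1 := by
    intro j
    obtain ⟨b', hb'⟩ := h1 j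
    have h5 : f j = (stA m x (inv (a j)) [] [] fun _ => [] : Store (m + 5) (σ ⊕ ι × Bool)) := by
      subst hs'
      exact sem_brP ⟨b', u j, hb'⟩
    have h6 := ih j (inv (a j)) h5
    rw [val_inv] at h6
    exact inv_eq_one.1 h6
  rw [val_eq_lift, hmk, map_list_prod, List.map_map]
  apply List.prod_eq_one
  intro z hz
  rw [List.mem_map] at hz
  obtain ⟨j, _, rfl⟩ := hz
  show FreeGroup.lift g ((FreeGroup.mk (q j))⁻¹ * FreeGroup.mk (a j) * FreeGroup.mk (q j)) = 1
  rw [map_mul, map_mul, map_inv, ← val_eq_lift g (a j), h4, mul_one, inv_mul_cancel]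

private theorem U13_aux {σ ι H : Type} [Finite σ] [Finite ι] [Group H] {g : ι → H} {m : ℕ} {R : List (Wd ι)}
    (hR : ∀ r ∈ R, val g r = 1) {A : σ → Wd ι} {U T : Wd ι} (x : List σ) {T' d : ℕ}
    {s : Store ((AltM m R A U T).k + 1) (AltM m R A U T).Γ} (h : (AltM m R A U T).Win T' d s) :
    ∀ w : Wd ι, s = (stA m x w [] [] fun _ => [] : Store (m + 5) (σ ⊕ ι × Bool)) → val g w = 1 := by
  induction h with
  | stop T₀ d t s s' h ht =>
    intro w hs
    rw [hs] at h
    obtain ⟨b, hb⟩ := h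
    exact hR w (sem_stP (x := x) (s' := s') ⟨b, t, hb⟩)
  | round T₀ d t s s' h ht u T₁ f h1 h2 h3 ih =>
    intro w hs
    rw [hs] at h
    exact U13_step x h h1 ih

theorem win_sound {σ ι H : Type} [Finite σ] [Finite ι] [Group H] {g : ι → H} {m : ℕ} {R : List (Wd ι)}
    (hR : ∀ r ∈ R, val g r = 1) {A : σ → Wd ι} {U T : Wd ι} {T' d : ℕ}
    {s : Store (m + 5) (σ ⊕ ι × Bool)} (h : (AltM m R A U T).Win T' d s) (x : List σ) (w : Wd ι)
    (hs : s = stA m x w [] [] fun _ => []) : val g w = 1 := by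
  have key : ∀ (T' d : ℕ) (s : Store ((AltM m R A U T).k + 1) (AltM m R A U T).Γ), (AltM m R A U T).Win T' d s →
      ∀ w : Wd ι, s = (stA m x w [] [] fun _ => [] : Store (m + 5) (σ ⊕ ι × Bool)) → val g w = 1 := by
    intro T' d s h
    exact U13_aux hR x h
  exact key T' d s h w hs

end Pool.Agent.Lib.MP_0f3a7d_alT
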