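import Mathlib
import Pool.Agent.Lib.MP_0f3a7d_alU.U13

/-!
# MP_0f3a7d_al, leaf U14: completeness

Strong induction on `|w|`, with `B = 4 m ^ 2 + 4 m + 6`, `C = 2 B`. If `|w| < m` then `w ∈ R`: `Win.stop` with `lead_stP`, `d = 0`.
Otherwise `Divis` gives a list `l`; `q j = inv (l[j]).1`, `a j = (l[j]).2` for `j < |l|` and `[]` for the other `j < m`: `mk w` is
the product over `List.finRange m` of the `(mk (q j))⁻¹ * mk (a j) * mk (q j)`; `|q j| ≤ m |w|`, `2 |a j| ≤ |w|`, `val g (a j) = 1`.
`lead_exP` and `lead_brP` take together at most `B |w|` actions (`|w| ≥ m ≥ 1`), the induction hypothesis for `inv (a j)` (length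
`≤ |w| / 2`, `val_inv`) gives `Win (C |a j| + (m + 1)) (d j)`, and `B |w| + C |a j| + (m + 1) ≤ C |w| + (m + 1)`. Take the maximum
`d` of the `d j` (`Win.mono`): `d = 0`, or `2 ^ d ≤ 2 |a j| ≤ |w|` for some `j`; hence `2 ^ (d + 1) ≤ 2 |w|`.
-/

set_option autoImplicit false

namespace Pool.Agent.Lib.MP_0f3a7d_alT

private theorem U14_prod {X G : Type} [Monoid G] (F : X → G) (e : X) (he : F e = 1) (m : ℕ) :
    ∀ l : List X, l.length ≤ m →
      ((List.finRange m).map fun j : Fin m => F (l.getD j.val e)).prod = (l.map F).prod := by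
  induction m with
  | zero =>
    intro l hl
    have h1 : l = [] := List.length_eq_zero_iff.mp (Nat.le_zero.mp hl)
    subst h1
    rfl
  | succ m ih =>
    intro l hl
    rw [List.finRange_succ, List.map_cons, List.prod_cons, List.map_map]
    cases l with
    | nil =>
      have h1 := ih [] (Nat.zero_le _)
      have h2 : ((List.finRange m).map ((fun j : Fin (m + 1) => F (([] : List X).getD j.val e)) ∘
          Fin.succ)) = (List.finRange m).map fun j : Fin m => F (([] : List X).getD j.val e) :=
        List.map_congr_left fun j _ => rfl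
      rw [h2, h1]
      show F e * _ = _
      rw [he, one_mul]
    | cons b l =>
      have h1 := ih l (by rw [List.length_cons] at hl; omega)
      have h2 : ((List.finRange m).map ((fun j : Fin (m + 1) => F ((b :: l).getD j.val e)) ∘
          Fin.succ)) = (List.finRange m).map fun j : Fin m => F (l.getD j.val e) :=
        List.map_congr_left fun j _ => by
          show F ((b :: l).getD (j.val + 1) e) = _
          rw [List.getD_cons_succ]
      rw [h2, h1, List.map_cons, List.prod_cons]
      rfl

private theorem U14_sum {m : ℕ} (f : Fin m → ℕ) (c : ℕ) (h : ∀ j, f j ≤ c) :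
    ((List.finRange m).map f).sum ≤ m * c := by
  have h1 := List.sum_le_card_nsmul ((List.finRange m).map f) c (by
    intro x hx
    obtain ⟨j, _, rfl⟩ := List.mem_map.mp hx
    exact h j)
  rwa [List.length_map, List.length_finRange, smul_eq_mul] at h1

/-- The division as a product over `Fin m`. -/
theorem divis_fin {ι H : Type} [Group H] {g : ι → H} {m : ℕ} (hD : Divis g m) {w : Wd ι}
    (hw : val g w = 1) (hl : m ≤ w.length) : ∃ q a : Fin m → Wd ι,
      (∀ j, (q j).length ≤ m * w.length ∧ 2 * (a j).length ≤ w.length ∧ val g (a j) = 1) ∧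
      FreeGroup.mk w = ((List.finRange m).map fun j =>
        (FreeGroup.mk (q j))⁻¹ * FreeGroup.mk (a j) * FreeGroup.mk (q j)).prod := by
  obtain ⟨l, h1, h2, h3⟩ := hD w hw hl
  have h4 : ∀ j : Fin m, (l.getD j.val ([], [])).1.length ≤ m * w.length ∧
      2 * (l.getD j.val ([], [])).2.length ≤ w.length ∧ val g (l.getD j.val ([], [])).2 = 1 := by
    intro j
    rcases lt_or_ge j.val l.length with h | h
    · rw [List.getD_eq_getElem _ _ h]
      exact h2 _ (List.getElem_mem h)
    · rw [List.getD_eq_default _ _ h]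
      exact ⟨Nat.zero_le _, Nat.zero_le _, rfl⟩
  refine ⟨fun j => inv (l.getD j.val ([], [])).1, fun j => (l.getD j.val ([], [])).2, fun j => ?_, ?_⟩
  · obtain ⟨h5, h6, h7⟩ := h4 j
    exact ⟨by rw [length_inv]; exact h5, h6, h7⟩
  · have h5 : FreeGroup.mk ([] : Wd ι) = 1 := FreeGroup.one_eq_mk.symm
    have h6 : FreeGroup.mk ([] : Wd ι) * FreeGroup.mk [] * (FreeGroup.mk [])⁻¹ = 1 := by
      rw [h5, mul_one, inv_one, mul_one]
    rw [h3, ← U14_prod (fun q : Wd ι × Wd ι => FreeGroup.mk q.1 * FreeGroup.mk q.2 *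
      (FreeGroup.mk q.1)⁻¹) ([], []) h6 m l h1]
    refine congrArg List.prod (List.map_congr_left fun j _ => ?_)
    rw [mk_inv, inv_inv]

theorem win_complete {σ ι H : Type} [Finite σ] [Finite ι] [Group H] {g : ι → H} {m : ℕ} (hm : 1 ≤ m)
    (hD : Divis g m) {R : List (Wd ι)} (hR : ∀ r : Wd ι, r.length < m → val g r = 1 → r ∈ R)
    (A : σ → Wd ι) (U T : Wd ι) (x : List σ) {w : Wd ι} (hw : val g w = 1) :
    ∃ d, (d = 0 ∨ 2 ^ d ≤ 2 * w.length) ∧
      (AltM m R A U T).Win (2 * (4 * m ^ 2 + 4 * m + 6) * w.length + (m + 1)) d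
        (stA m x w [] [] fun _ => []) := by
  generalize hn : w.length = n
  induction n using Nat.strong_induction_on generalizing w with
  | _ n ih =>
    rcases lt_or_ge n m with h | h
    · obtain ⟨s', t, ht, h1⟩ := lead_stP (σ := σ) x (hR w (by omega) hw)
      exact ⟨0, Or.inl rfl, AMachine.Win.stop _ 0 t _ s' h1 (by omega)⟩
    · obtain ⟨q, a, h1, h2⟩ := divis_fin hD hw (by omega)
      have h3 : ∀ j, ∃ d, (d = 0 ∨ 2 ^ d ≤ 2 * (a j).length) ∧
          (AltM m R A U T).Win (2 * (4 * m ^ 2 + 4 * m + 6) * (a j).length + (m + 1)) d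
            (stA m x (inv (a j)) [] [] fun _ => []) := by
        intro j
        obtain ⟨_, h5, h6⟩ := h1 j
        exact ih (a j).length (by omega) (w := inv (a j)) (by rw [val_inv, h6, inv_one])
          (length_inv _)
      choose d hd1 hd2 using h3
      obtain ⟨t, ht, h4⟩ := lead_exP (σ := σ) x q a h2
      have h5 := fun j => lead_brP (σ := σ) x j a
      choose u hu1 hu2 using h5
      obtain ⟨j0, _, hj0⟩ := Finset.exists_mem_eq_sup (Finset.univ : Finset (Fin m))
        ⟨⟨0, hm⟩, Finset.mem_univ _⟩ d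
      have hS1 := U14_sum (fun j => 4 * (q j).length + 2 * (a j).length + 1)
        (4 * (m * n) + n + 1) fun j => by
          obtain ⟨h6, h7, _⟩ := h1 j
          rw [hn] at h6 h7
          show 4 * (q j).length + 2 * (a j).length + 1 ≤ _
          omega
      have hS2 := U14_sum (fun j => (a j).length + 1) (n / 2 + 1) fun j => by
          obtain ⟨_, h7, _⟩ := h1 j
          rw [hn] at h7
          show (a j).length + 1 ≤ _
          omega
      rw [hn] at ht
      have hn1 : 1 ≤ n := by omega
      have hS3 : 2 * (m * (n / 2 + 1)) ≤ m * n + 2 * m := by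
        have h6 : n / 2 * 2 ≤ n := Nat.div_mul_le_self n 2
        nlinarith
      have htot : ∀ j, t + u j + (2 * (4 * m ^ 2 + 4 * m + 6) * (a j).length + (m + 1)) ≤
          2 * (4 * m ^ 2 + 4 * m + 6) * n + (m + 1) := by
        intro j
        obtain ⟨_, h7, _⟩ := h1 j
        rw [hn] at h7
        have h8 := hu1 j
        have h9 : (4 * m ^ 2 + 4 * m + 6) * (2 * (a j).length) ≤ (4 * m ^ 2 + 4 * m + 6) * n :=
          Nat.mul_le_mul_left _ h7
        nlinarith [Nat.mul_le_mul_left m hn1]
      refine ⟨Finset.univ.sup d + 1, Or.inr ?_, AMachine.Win.round (M := AltM m R A U T) _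
        (Finset.univ.sup d) t _ (stA m x [] [] [] a) h4 ?_ u
        (fun j => 2 * (4 * m ^ 2 + 4 * m + 6) * (a j).length + (m + 1))
        (fun j => stA m x (inv (a j)) [] [] fun _ => []) hu2 htot fun j => ?_⟩
      · rw [hj0, pow_succ]
        rcases hd1 j0 with h6 | h6
        · rw [h6, pow_zero]
          omega
        · obtain ⟨_, h7, _⟩ := h1 j0
          omega
      · have h6 := htot j0
        omega
      · exact AMachine.Win.mono le_rfl (Finset.le_sup (Finset.mem_univ j)) (hd2 j)

end Pool.Agent.Lib.MP_0f3a7d_alT
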