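import Mathlib
import Pool.Agent.Lib.MP_0f3a7d_alU.U12
import Pool.Agent.Lib.MP_0f3a7d_alU.U14

/-!
# MP_0f3a7d_al, leaf U15: the class

`R` = a list of all words of length `< m` with value `1` (`List.finite_length_lt`); the machine `AltM m R A U T`
(`(AltM m R A U T).init x = fun i => if i = 0 then x.map Sum.inl else []` by `rfl`). Completeness: `lead_startP` (constant `c1`),
`win_complete` for `w = comm A U T x`, `|w| ≤ c2 (|x| + 1)` (`length_comm`): total time at most
`(c1 + C c2 + m + 1) (|x| + 1)`; `2 ^ d ≤ 2 c2 (|x| + 1) ≤ 2 ^ e * 2 ^ (Nat.log 2 (|x| + 1) + 1)` for `2 c2 ≤ 2 ^ e`, so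
`d ≤ e + log + 1`. Soundness: `sem_startP`, `win_sound`.
-/

set_option autoImplicit false

namespace Pool.Agent.Lib.MP_0f3a7d_alT

theorem Divis.mono {ι H : Type} [Group H] {g : ι → H} {M M' : ℕ} (h : M ≤ M') (hM : Divis g M) : Divis g M' := by
  intro w hw hl
  obtain ⟨l, h1, h2, h3⟩ := hM w hw (h.trans hl)
  refine ⟨l, h1.trans h, fun q hq => ⟨?_, (h2 q hq).2⟩, h3⟩
  exact (h2 q hq).1.trans (Nat.mul_le_mul_right _ h)

theorem altlin_machine {σ ι H : Type} [Finite σ] [Finite ι] [Group H] (g : ι → H) (A : σ → Wd ι)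
    (U T : Wd ι) {m : ℕ} (hm : 1 ≤ m) (hD : Divis g m) :
    InAltLin {x : List σ | val g (comm A U T x) = 1} := by
  have hfin : {r : Wd ι | r.length < m ∧ val g r = 1}.Finite :=
    (List.finite_length_lt (ι × Bool) m).subset fun r hr => hr.1
  obtain ⟨R, hR⟩ : ∃ R : List (Wd ι), ∀ r, r ∈ R ↔ r.length < m ∧ val g r = 1 :=
    ⟨hfin.toFinset.toList, fun r => by rw [Finset.mem_toList, Set.Finite.mem_toFinset]; rfl⟩
  obtain ⟨c1, h1⟩ := lead_startP m A U T
  obtain ⟨c2, h2⟩ := length_comm A U T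
  obtain ⟨C, hC⟩ : ∃ C, C = 2 * (4 * m ^ 2 + 4 * m + 6) := ⟨_, rfl⟩
  obtain ⟨e, he⟩ : ∃ e : ℕ, 2 * c2 ≤ 2 ^ e := ⟨2 * c2, Nat.le_of_lt Nat.lt_two_pow_self⟩
  refine ⟨AltM m R A U T, c1 + C * c2 + (m + 1) + (e + 1), fun x hx => ?_, ?_⟩
  · obtain ⟨d, hd, hw⟩ := win_complete (σ := σ) hm hD (R := R) (fun r h h' => (hR r).2 ⟨h, h'⟩) A U T x
      (w := comm A U T x) hx
    rw [← hC] at hw
    obtain ⟨t, ht, hs⟩ := h1 x
    have hlen := h2 x
    have hN : 1 ≤ x.length + 1 := Nat.le_add_left 1 _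
    have hlog : x.length + 1 < 2 ^ (Nat.log 2 (x.length + 1) + 1) :=
      Nat.lt_pow_succ_log_self (by norm_num) _
    have hd2 : d ≤ e + Nat.log 2 (x.length + 1) := by
      rcases hd with rfl | hd
      · exact Nat.zero_le _
      · have h4 : 2 ^ d < 2 ^ (e + (Nat.log 2 (x.length + 1) + 1)) := by
          calc 2 ^ d ≤ 2 * (comm A U T x).length := hd
            _ ≤ 2 * (c2 * (x.length + 1)) := Nat.mul_le_mul_left _ hlen
            _ = (2 * c2) * (x.length + 1) := by ring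
            _ ≤ 2 ^ e * (x.length + 1) := Nat.mul_le_mul_right _ he
            _ < 2 ^ e * 2 ^ (Nat.log 2 (x.length + 1) + 1) :=
              Nat.mul_lt_mul_of_pos_left hlog (Nat.pos_of_ne_zero (by positivity))
            _ = 2 ^ (e + (Nat.log 2 (x.length + 1) + 1)) := (pow_add _ _ _).symm
        have h5 := (Nat.pow_lt_pow_iff_right (by norm_num : 1 < 2)).1 h4
        omega
    refine ⟨t, C * (comm A U T x).length + (m + 1), _, hs, ?_, hw.mono le_rfl ?_⟩
    · have h6 : C * (comm A U T x).length ≤ C * c2 * (x.length + 1) := by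
        rw [Nat.mul_assoc]
        exact Nat.mul_le_mul_left _ hlen
      have h7 : m + 1 ≤ (m + 1) * (x.length + 1) := Nat.le_mul_of_pos_right _ hN
      calc t + (C * (comm A U T x).length + (m + 1))
          ≤ c1 * (x.length + 1) + (C * c2 * (x.length + 1) + (m + 1) * (x.length + 1)) := by omega
        _ = (c1 + C * c2 + (m + 1)) * (x.length + 1) := by ring
        _ ≤ (c1 + C * c2 + (m + 1) + (e + 1)) * (x.length + 1) :=
          Nat.mul_le_mul_right _ (Nat.le_add_right _ _)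
    · calc d ≤ e + Nat.log 2 (x.length + 1) := hd2
        _ ≤ (e + 1) * (Nat.log 2 (x.length + 1) + 1) := by
          have : (e + 1) * (Nat.log 2 (x.length + 1) + 1) =
            e * Nat.log 2 (x.length + 1) + e + Nat.log 2 (x.length + 1) + 1 := by ring
          omega
        _ ≤ (c1 + C * c2 + (m + 1) + (e + 1)) * (Nat.log 2 (x.length + 1) + 1) :=
          Nat.mul_le_mul_right _ (Nat.le_add_left _ _)
  · rintro x T' d ⟨t, T'', s, hs, -, hw⟩
    have h3 : s = stA m x (comm A U T x) [] [] fun _ => [] := sem_startP hs.sem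
    exact win_sound (fun r hr => ((hR r).1 hr).2) hw x _ h3

end Pool.Agent.Lib.MP_0f3a7d_alT
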