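import Mathlib
import Pool.Agent.Lib.MP_0f3a7d_alT.Main
import Pool.Agent.Lib.MP_0f3a7d_alU.U15

/-!
# MP_0f3a7d_al: if the group `HL L` embeds in a group with simply connected cones then `L` is in alternating linear time with
logarithmically many rounds
-/

set_option autoImplicit false

namespace Pool.Agent.Lib.MP_0f3a7d_alT

theorem main_alt {σ : Type} [Finite σ] (L : Set (List σ)) (hE : EmbedsSC (HL L)) : InAltLin L := by
  obtain ⟨H, iH, f, hf, ι, iι, g, hg, hsc⟩ := hE
  obtain ⟨M, hM⟩ := divis_of_cones hsc
  choose A hA using fun a : σ => exists_word hg (f (HNNExtension.of (FreeGroup.of (some a))))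
  obtain ⟨U, hU⟩ := exists_word hg (f HNNExtension.t)
  obtain ⟨T, hT⟩ := exists_word hg (f (HNNExtension.of (FreeGroup.of none)))
  have key := altlin_machine g A U T (Nat.le_add_left 1 M) (hM.mono (Nat.le_add_right M 1))
  have hset : {x : List σ | val g (comm A U T x) = 1} = L := by
    ext x
    have h1 : val g (comm A U T x) =
        f (HNNExtension.t * HNNExtension.of (cx x) * HNNExtension.t⁻¹ * (HNNExtension.of (cx x))⁻¹) := by
      unfold comm cx
      simp only [val_append, val_inv, val_flatMap g L f A hA x, hU, hT, map_mul, map_inv]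
      group
    have h2 : x ∈ {x : List σ | val g (comm A U T x) = 1} ↔ val g (comm A U T x) = 1 := Iff.rfl
    rw [h2, h1, map_eq_one_iff f hf]
    exact comm_iff L
  rwa [hset] at key

end Pool.Agent.Lib.MP_0f3a7d_alT
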